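import Pool.Agent.Lib.H57G.Defs

/-!
# B1: the evaluation homomorphism
-/

set_option autoImplicit false

open PowerSeries H47E

namespace Pool.Agent.H57G

variable {n : ℕ} {K : Type} [Field K] (ι : K →+* ℂ) {L : PeriodPair} {e : ℂ} {a c : K}

theorem b1_X (N : Norm L e (ι a) (ι c)) (v : Fin n → ℂ) (hv : ∀ j, 2 * v j ∉ L.lattice) (q : Fin n × Fin 4) :
    ev ι N v hv (Ideal.Quotient.mk _ (MvPolynomial.X q)) = gv ι c L e v q := by
  unfold ev llift
  rw [Ideal.Quotient.lift_mk, MvPolynomial.coe_eval₂Hom, MvPolynomial.eval₂_X]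

theorem b1_C (N : Norm L e (ι a) (ι c)) (v : Fin n → ℂ) (hv : ∀ j, 2 * v j ∉ L.lattice) (r : K) :
    ev ι N v hv (algebraMap K (LL n a c K) r) = ι r := by
  show ev ι N v hv (Ideal.Quotient.mk _ (MvPolynomial.C r)) = ι r
  unfold ev llift
  rw [Ideal.Quotient.lift_mk, MvPolynomial.coe_eval₂Hom, MvPolynomial.eval₂_C]

/-- Values of the generators and of the constants. -/
theorem ev_gen (N : Norm L e (ι a) (ι c)) (v : Fin n → ℂ) (hv : ∀ j, 2 * v j ∉ L.lattice) (j : Fin n) (r : K) :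
    ev ι N v hv (gx a c K j) = xf L e (v j) ∧ ev ι N v hv (gb a c K j) = ι c / xf L e (v j) ∧
    ev ι N v hv (gt a c K j) = yf L (v j) / xf L e (v j) ∧ ev ι N v hv (gw a c K j) = wf L e (v j) ∧
    ev ι N v hv (gy a c K j) = yf L (v j) ∧ ev ι N v hv (algebraMap K (LL n a c K) r) = ι r := by
  have hx := x_ne N (hv j)
  have h0 : ev ι N v hv (gx a c K j) = xf L e (v j) := b1_X ι N v hv (j, 0)
  have h2 : ev ι N v hv (gt a c K j) = yf L (v j) / xf L e (v j) := b1_X ι N v hv (j, 2)
  refine ⟨h0, b1_X ι N v hv (j, 1), h2, b1_X ι N v hv (j, 3), ?_, b1_C ι N v hv r⟩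
  unfold gy
  rw [map_mul, h0, h2, mul_div_cancel₀ _ hx]

/-- The value of a monomial of type A. -/
theorem ev_mon (N : Norm L e (ι a) (ι c)) (v : Fin n → ℂ) (hv : ∀ j, 2 * v j ∉ L.lattice) (I : Fin n → Ix)
    (hI : ∀ j, tA (I j)) : ev ι N v hv (mon a c K I) =
      ∏ j, (xf L e (v j) ^ ((I j).1 - ((I j).2.1 : ℕ)).toNat * yf L (v j) ^ ((I j).2.1 : ℕ) * wf L e (v j) ^ (I j).2.2) := by
  unfold mon
  rw [map_prod]
  refine Finset.prod_congr rfl fun j _ => ?_
  obtain ⟨h0, h1, h2, h3, h4, h5⟩ := ev_gen ι N v hv j (0 : K)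
  have hx := x_ne N (hv j)
  have hA := hI j
  unfold tA at hA
  unfold mon1
  have hi : 0 ≤ (I j).1 := by omega
  rw [if_pos hi, map_mul, map_mul, map_pow, map_pow, map_pow, h0, h2, h3]
  congr 1
  have h6 : (I j).1.toNat = ((I j).1 - ((I j).2.1 : ℕ)).toNat + ((I j).2.1 : ℕ) := by omega
  conv_lhs => rw [h6]
  rw [pow_add, mul_assoc, ← mul_pow, mul_div_cancel₀ _ hx]

/-- The set of good parameters is open (`PeriodPair.isClosed_lattice`). -/
theorem om_open (L : PeriodPair) (p : Fin n → K) : IsOpen (Om ι L p) := by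
  have h : Om ι L p = ⋂ j : Fin n, (fun z : ℂ => 2 * (ι (p j) * z)) ⁻¹' ((L.lattice : Set ℂ)ᶜ) := by
    ext z
    simp [Om]
  rw [h]
  refine isOpen_iInter_of_finite fun j => ?_
  refine IsOpen.preimage (by fun_prop) ?_
  exact (PeriodPair.isClosed_lattice L).isOpen_compl

theorem b1_Fz (N : Norm L e (ι a) (ι c)) (p : Fin n → K) (φ : LL n a c K) (z : ℂ) (hz : z ∈ Om ι L p) :
    Fz ι N p φ z = ev ι N (fun j => ι (p j) * z) hz φ := by
  unfold Fz
  rw [dif_pos (show ∀ j, 2 * (ι (p j) * z) ∉ L.lattice from hz)]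

theorem b1_notin {p : Fin n → K} {z : ℂ} (hz : z ∈ Om ι L p) (j : Fin n) : ι (p j) * z ∉ L.lattice := fun h => hz j (by
  rw [two_mul]; exact add_mem h h)

/-- The derivative of an element of the ring as a function of `z` (induction on a polynomial which represents `φ`:
`Ideal.Quotient.mk_surjective`, `MvPolynomial.induction_on`; `der_alg`, `der_x`, `der_b`, `der_t`, `der_w`; `x_deriv`, `y_deriv`, `w_deriv`). -/
theorem Fz_deriv (N : Norm L e (ι a) (ι c)) (p : Fin n → K) (φ : LL n a c K) (z : ℂ) (hz : z ∈ Om ι L p) :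
    HasDerivAt (Fz ι N p φ) (Fz ι N p (der a c 0 p φ) z) z := by
  have hopen := (om_open ι L p).mem_nhds hz
  -- constants
  have hC : ∀ r : K, HasDerivAt (Fz ι N p (algebraMap K (LL n a c K) r))
      (Fz ι N p (der a c 0 p (algebraMap K (LL n a c K) r)) z) z := by
    intro r
    rw [der_alg, Derivation.zero_apply, map_zero, b1_Fz ι N p 0 z hz, map_zero]
    refine (hasDerivAt_const z (ι r)).congr_of_eventuallyEq ?_
    filter_upwards [hopen] with y hy
    rw [b1_Fz ι N p _ y hy]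
    exact b1_C ι N _ hy r
  have hadd : ∀ f g : LL n a c K, HasDerivAt (Fz ι N p f) (Fz ι N p (der a c 0 p f) z) z →
      HasDerivAt (Fz ι N p g) (Fz ι N p (der a c 0 p g) z) z →
      HasDerivAt (Fz ι N p (f + g)) (Fz ι N p (der a c 0 p (f + g)) z) z := by
    intro f g hf hg
    have h1 := hf.add hg
    rw [map_add, b1_Fz ι N p _ z hz, map_add, ← b1_Fz ι N p _ z hz, ← b1_Fz ι N p _ z hz]
    refine h1.congr_of_eventuallyEq ?_
    filter_upwards [hopen] with y hy
    rw [b1_Fz ι N p _ y hy, map_add, ← b1_Fz ι N p _ y hy, ← b1_Fz ι N p _ y hy]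
    rfl
  have hmul : ∀ f g : LL n a c K, HasDerivAt (Fz ι N p f) (Fz ι N p (der a c 0 p f) z) z →
      HasDerivAt (Fz ι N p g) (Fz ι N p (der a c 0 p g) z) z →
      HasDerivAt (Fz ι N p (f * g)) (Fz ι N p (der a c 0 p (f * g)) z) z := by
    intro f g hf hg
    have h1 := hf.mul hg
    have h2 : Fz ι N p (der a c 0 p (f * g)) z = Fz ι N p (der a c 0 p f) z * Fz ι N p g z +
        Fz ι N p f z * Fz ι N p (der a c 0 p g) z := by
      rw [Derivation.leibniz, smul_eq_mul, smul_eq_mul, b1_Fz ι N p _ z hz, map_add, map_mul, map_mul,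
        ← b1_Fz ι N p _ z hz, ← b1_Fz ι N p _ z hz, ← b1_Fz ι N p _ z hz, ← b1_Fz ι N p _ z hz]
      ring
    rw [h2]
    refine h1.congr_of_eventuallyEq ?_
    filter_upwards [hopen] with y hy
    rw [b1_Fz ι N p _ y hy, map_mul, ← b1_Fz ι N p _ y hy, ← b1_Fz ι N p _ y hy]
    rfl
  have hlin : ∀ j, HasDerivAt (fun y : ℂ => ι (p j) * y) (ι (p j)) z := fun j => by
    simpa using (hasDerivAt_id z).const_mul (ι (p j))
  have hgen : ∀ q : Fin n × Fin 4, HasDerivAt (Fz ι N p (Ideal.Quotient.mk _ (MvPolynomial.X q)))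
      (Fz ι N p (der a c 0 p (Ideal.Quotient.mk _ (MvPolynomial.X q))) z) z := by
    rintro ⟨j, i⟩
    have hn := b1_notin ι hz j
    have hx := x_ne N (hz j)
    have hev : Fz ι N p (Ideal.Quotient.mk _ (MvPolynomial.X (j, i))) =ᶠ[nhds z]
        fun y => gv ι c L e (fun j => ι (p j) * y) (j, i) := by
      filter_upwards [hopen] with y hy
      rw [b1_Fz ι N p _ y hy]
      exact b1_X ι N _ hy (j, i)
    obtain ⟨h0, h1, h2, h3, h4, h5⟩ := ev_gen ι N (fun j => ι (p j) * z) hz j (p j)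
    obtain ⟨-, -, -, -, -, h6⟩ := ev_gen ι N (fun j => ι (p j) * z) hz j a
    have hxd := (x_deriv (L := L) e hn).comp z (hlin j)
    have hyd := (y_deriv N hn).comp z (hlin j)
    have hwd := (w_deriv (L := L) e hn).comp z (hlin j)
    have hcu := curve N hn
    fin_cases i
    · have hd : der a c 0 p (Ideal.Quotient.mk (relI n a c K) (MvPolynomial.X (j, 0))) = _ := der_x a c (0 : Derivation K K K) p j
      refine HasDerivAt.congr_of_eventuallyEq ?_ hev
      show HasDerivAt _ (Fz ι N p (der a c 0 p (Ideal.Quotient.mk (relI n a c K) (MvPolynomial.X (j, 0)))) z) z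
      rw [hd, b1_Fz ι N p _ z hz, map_mul, map_mul, h5, h4, map_ofNat]
      refine hxd.congr_deriv ?_
      ring
    · have hd : der a c 0 p (Ideal.Quotient.mk (relI n a c K) (MvPolynomial.X (j, 1))) = _ := der_b a c (0 : Derivation K K K) p j
      refine HasDerivAt.congr_of_eventuallyEq ?_ hev
      show HasDerivAt _ (Fz ι N p (der a c 0 p (Ideal.Quotient.mk (relI n a c K) (MvPolynomial.X (j, 1)))) z) z
      rw [hd, b1_Fz ι N p _ z hz, map_neg, map_mul, map_mul, map_mul, h5, h1, h2, map_ofNat]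
      have hq := (hasDerivAt_const z (ι c)).div hxd hx
      refine hq.congr_deriv ?_
      simp only [Function.comp_apply]
      field_simp
      ring
    · have hd : der a c 0 p (Ideal.Quotient.mk (relI n a c K) (MvPolynomial.X (j, 2))) = _ := der_t a c (0 : Derivation K K K) p j
      refine HasDerivAt.congr_of_eventuallyEq ?_ hev
      show HasDerivAt _ (Fz ι N p (der a c 0 p (Ideal.Quotient.mk (relI n a c K) (MvPolynomial.X (j, 2)))) z) z
      rw [hd, b1_Fz ι N p _ z hz, map_mul, map_sub, h5, h0, h1]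
      have hq := hyd.div hxd hx
      refine hq.congr_deriv ?_
      simp only [Function.comp_apply]
      field_simp
      linear_combination (-2 * ι (p j)) * hcu
    · have hd : der a c 0 p (Ideal.Quotient.mk (relI n a c K) (MvPolynomial.X (j, 3))) = _ := der_w a c (0 : Derivation K K K) p j
      refine HasDerivAt.congr_of_eventuallyEq ?_ hev
      show HasDerivAt _ (Fz ι N p (der a c 0 p (Ideal.Quotient.mk (relI n a c K) (MvPolynomial.X (j, 3)))) z) z
      rw [hd, b1_Fz ι N p _ z hz, map_neg, map_mul, h5, h0]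
      refine hwd.congr_deriv ?_
      ring
  obtain ⟨P, rfl⟩ := Ideal.Quotient.mk_surjective φ
  induction P using MvPolynomial.induction_on with
  | C r => exact hC r
  | add f g hf hg =>
    rw [map_add]
    exact hadd _ _ hf hg
  | mul_X f q hf =>
    rw [map_mul]
    exact hmul _ _ hf (hgen q)

end Pool.Agent.H57G
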