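import Pool.Agent.Lib.H57G.B1

/-!
# B2: Taylor series of the elements of the ring
-/

set_option autoImplicit false

open PowerSeries H47E

namespace Pool.Agent.H57G

variable {n : ℕ} {K : Type} [Field K] (ι : K →+* ℂ) {L : PeriodPair} {e : ℂ} {a c : K}

theorem Fz_iter (N : Norm L e (ι a) (ι c)) (p : Fin n → K) (φ : LL n a c K) (z : ℂ) (hz : z ∈ Om ι L p) (i : ℕ) :
    iteratedDeriv i (Fz ι N p φ) z = Fz ι N p ((der a c 0 p)^[i] φ) z := by
  induction i generalizing z with
  | zero => rw [iteratedDeriv_zero, Function.iterate_zero, id]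
  | succ i ih =>
    rw [iteratedDeriv_succ, Function.iterate_succ_apply']
    have h1 : iteratedDeriv i (Fz ι N p φ) =ᶠ[nhds z] Fz ι N p ((der a c 0 p)^[i] φ) := by
      filter_upwards [(om_open ι L p).mem_nhds hz] with y hy
      exact ih y hy
    rw [h1.deriv_eq]
    exact (Fz_deriv ι N p _ z hz).deriv

theorem Fz_analytic (N : Norm L e (ι a) (ι c)) (p : Fin n → K) (φ : LL n a c K) (z : ℂ) (hz : z ∈ Om ι L p) :
    AnalyticAt ℂ (Fz ι N p φ) z := by
  have h1 : DifferentiableOn ℂ (Fz ι N p φ) (Om ι L p) := fun y hy =>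
    (Fz_deriv ι N p φ y hy).differentiableAt.differentiableWithinAt
  exact h1.analyticAt ((om_open ι L p).mem_nhds hz)

/-- The Taylor series is the value of the exponential of the derivation. -/
theorem TS_Fz [CharZero K] (N : Norm L e (ι a) (ι c)) (p : Fin n → K) (φ : LL n a c K) (z : ℂ)
    (hz : ∀ j, 2 * (ι (p j) * z) ∉ L.lattice) :
    TS (Fz ι N p φ) z = PowerSeries.map (ev ι N (fun j => ι (p j) * z) hz) (expD (der a c 0 p) φ) := by
  ext i
  have hi : (i.factorial : K) ≠ 0 := by exact_mod_cast i.factorial_ne_zero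
  have hi2 : (i.factorial : ℂ) ≠ 0 := by exact_mod_cast i.factorial_ne_zero
  have h1 : coeff i (TS (Fz ι N p φ) z) = iteratedDeriv i (Fz ι N p φ) z / (i.factorial : ℂ) := by
    unfold TS
    rw [coeff_mk]
  rw [h1, coeff_map, expD_coeff, Fz_iter ι N p φ z hz i, div_eq_iff hi2]
  have h2 : Fz ι N p ((der a c 0 p)^[i] φ) z = ev ι N (fun j => ι (p j) * z) hz ((der a c 0 p)^[i] φ) := by
    unfold Fz
    rw [dif_pos hz]
  have h3 : (der a c 0 p)^[i] φ = ((i.factorial : K)⁻¹ • (der a c 0 p)^[i] φ) * ((i.factorial : ℕ) : LL n a c K) := by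
    rw [mul_comm, ← nsmul_eq_mul, ← Nat.cast_smul_eq_nsmul K, smul_smul, mul_inv_cancel₀ hi, one_smul]
  rw [h2]
  conv_lhs => rw [h3]
  rw [map_mul, map_natCast]

end Pool.Agent.H57G
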