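import Pool.Agent.Lib.H57G.Defs

/-!
# B3: formal rules for Taylor series
-/

set_option autoImplicit false

open PowerSeries H47E

namespace Pool.Agent.H57G

/-- Leibniz (`iteratedDeriv_mul`). -/
theorem TS_mul {f g : ℂ → ℂ} {z : ℂ} (hf : AnalyticAt ℂ f z) (hg : AnalyticAt ℂ g z) :
    TS (fun w => f w * g w) z = TS f z * TS g z := by
  ext i
  unfold TS
  rw [PowerSeries.coeff_mk, PowerSeries.coeff_mul]
  have h1 : iteratedDeriv i (fun w => f w * g w) z = ∑ j ∈ Finset.range (i + 1),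
      i.choose j * iteratedDeriv j f z * iteratedDeriv (i - j) g z :=
    iteratedDeriv_mul hf.contDiffAt hg.contDiffAt
  rw [h1, Finset.sum_div, Finset.Nat.sum_antidiagonal_eq_sum_range_succ_mk]
  refine Finset.sum_congr rfl fun j hj => ?_
  have hji : j ≤ i := Nat.lt_succ_iff.mp (Finset.mem_range.mp hj)
  dsimp only
  rw [PowerSeries.coeff_mk, PowerSeries.coeff_mk, Nat.cast_choose ℂ hji]
  have h2 : (j.factorial : ℂ) ≠ 0 := by exact_mod_cast j.factorial_ne_zero
  have h3 : ((i - j).factorial : ℂ) ≠ 0 := by exact_mod_cast (i - j).factorial_ne_zero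
  have h4 : (i.factorial : ℂ) ≠ 0 := by exact_mod_cast i.factorial_ne_zero
  field_simp

theorem TS_congr {f g : ℂ → ℂ} {z : ℂ} (h : f =ᶠ[nhds z] g) : TS f z = TS g z := by
  ext i
  unfold TS
  rw [PowerSeries.coeff_mk, PowerSeries.coeff_mk, h.iteratedDeriv_eq i]

/-- `taylor_coeff` -/
theorem taylor_eq_TS {F : ℂ⟦X⟧} (hF : AG F) (z : ℂ) : taylor z F = TS (val F) z := by
  ext i
  rw [taylor_coeff hF]
  unfold TS
  rw [PowerSeries.coeff_mk]

theorem TS_zero (f : ℂ → ℂ) (z : ℂ) : constantCoeff (TS f z) = f z := by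
  rw [← PowerSeries.coeff_zero_eq_constantCoeff_apply]
  unfold TS
  rw [PowerSeries.coeff_mk, iteratedDeriv_zero, Nat.factorial_zero, Nat.cast_one, div_one]

/-- The Taylor series of a function analytic at the point has a positive radius of convergence. -/
theorem TS_geo {f : ℂ → ℂ} {z : ℂ} (hf : AnalyticAt ℂ f z) : Geo (TS f z) := by
  obtain ⟨C, r, hC, hr, h⟩ := FormalMultilinearSeries.le_mul_pow_of_radius_pos _ hf.hasFPowerSeriesAt.radius_pos
  refine ⟨max C r, fun i => ?_⟩
  have h1 := h i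
  rw [FormalMultilinearSeries.ofScalars_norm] at h1
  unfold TS
  rw [PowerSeries.coeff_mk]
  refine h1.trans ?_
  rw [pow_succ, mul_comm]
  exact mul_le_mul (pow_le_pow_left₀ hr.le (le_max_right _ _) i) (le_max_left _ _) hC.le
    (pow_nonneg (hC.le.trans (le_max_left _ _)) i)

end Pool.Agent.H57G
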