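import Pool.Agent.Lib.H57G.Defs

/-!
# B4: series with a positive radius of convergence
-/

set_option autoImplicit false

open PowerSeries H47E

namespace Pool.Agent.H57G

theorem b4_norm {F : ℂ⟦X⟧} (hF : Geo F) : ∃ M : ℝ, 1 ≤ M ∧ ∀ i : ℕ, ‖coeff i F‖ ≤ M ^ (i + 1) := by
  obtain ⟨B, hB⟩ := hF
  refine ⟨max 1 |B|, le_max_left _ _, fun i => (hB i).trans ?_⟩
  calc B ^ (i + 1) ≤ |B ^ (i + 1)| := le_abs_self _
    _ = |B| ^ (i + 1) := abs_pow _ _
    _ ≤ (max 1 |B|) ^ (i + 1) := pow_le_pow_left₀ (abs_nonneg _) (le_max_right _ _) _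

theorem b4_norm2 {F G : ℂ⟦X⟧} (hF : Geo F) (hG : Geo G) :
    ∃ M : ℝ, 1 ≤ M ∧ (∀ i : ℕ, ‖coeff i F‖ ≤ M ^ (i + 1)) ∧ ∀ i : ℕ, ‖coeff i G‖ ≤ M ^ (i + 1) := by
  obtain ⟨M, hM, h1⟩ := b4_norm hF
  obtain ⟨N, hN, h2⟩ := b4_norm hG
  refine ⟨max M N, hM.trans (le_max_left _ _), fun i => (h1 i).trans ?_, fun i => (h2 i).trans ?_⟩
  · exact pow_le_pow_left₀ (by linarith) (le_max_left _ _) _
  · exact pow_le_pow_left₀ (by linarith) (le_max_right _ _) _

theorem geo_add {F G : ℂ⟦X⟧} (hF : Geo F) (hG : Geo G) : Geo (F + G) := by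
  obtain ⟨M, hM, h1, h2⟩ := b4_norm2 hF hG
  refine ⟨2 * M, fun i => ?_⟩
  rw [map_add]
  have h3 : (2 : ℝ) ≤ 2 ^ (i + 1) := by
    calc (2 : ℝ) = 2 ^ 1 := by norm_num
      _ ≤ 2 ^ (i + 1) := pow_le_pow_right₀ (by norm_num) (by omega)
  have h4 : (0 : ℝ) ≤ M ^ (i + 1) := by positivity
  calc ‖coeff i F + coeff i G‖ ≤ ‖coeff i F‖ + ‖coeff i G‖ := norm_add_le _ _
    _ ≤ M ^ (i + 1) + M ^ (i + 1) := add_le_add (h1 i) (h2 i)
    _ = 2 * M ^ (i + 1) := by ring
    _ ≤ 2 ^ (i + 1) * M ^ (i + 1) := mul_le_mul_of_nonneg_right h3 h4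
    _ = (2 * M) ^ (i + 1) := by rw [mul_pow]

theorem geo_neg {F : ℂ⟦X⟧} (hF : Geo F) : Geo (-F) := by
  obtain ⟨B, hB⟩ := hF
  refine ⟨B, fun i => ?_⟩
  rw [map_neg, norm_neg]
  exact hB i

theorem geo_mul {F G : ℂ⟦X⟧} (hF : Geo F) (hG : Geo G) : Geo (F * G) := by
  obtain ⟨M, hM, h1, h2⟩ := b4_norm2 hF hG
  refine ⟨2 * M ^ 2, fun i => ?_⟩
  rw [coeff_mul]
  have h0 : (0 : ℝ) ≤ M := by linarith
  have h3 : ∀ q ∈ Finset.HasAntidiagonal.antidiagonal i, ‖coeff q.1 F * coeff q.2 G‖ ≤ M ^ (i + 2) := by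
    intro q hq
    rw [Finset.HasAntidiagonal.mem_antidiagonal] at hq
    rw [norm_mul]
    calc ‖coeff q.1 F‖ * ‖coeff q.2 G‖ ≤ M ^ (q.1 + 1) * M ^ (q.2 + 1) :=
          mul_le_mul (h1 _) (h2 _) (norm_nonneg _) (by positivity)
      _ = M ^ (i + 2) := by rw [← pow_add]; congr 1; omega
  have h4 : ((i : ℝ) + 1) ≤ 2 ^ (i + 1) := by
    have : i + 1 < 2 ^ (i + 1) := Nat.lt_two_pow_self
    exact_mod_cast this.le
  calc ‖∑ q ∈ Finset.HasAntidiagonal.antidiagonal i, coeff q.1 F * coeff q.2 G‖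
      ≤ ∑ q ∈ Finset.HasAntidiagonal.antidiagonal i, ‖coeff q.1 F * coeff q.2 G‖ := norm_sum_le _ _
    _ ≤ ∑ q ∈ Finset.HasAntidiagonal.antidiagonal i, M ^ (i + 2) := Finset.sum_le_sum h3
    _ = ((i : ℝ) + 1) * M ^ (i + 2) := by
        rw [Finset.sum_const, Finset.Nat.card_antidiagonal, nsmul_eq_mul]; push_cast; ring
    _ ≤ 2 ^ (i + 1) * M ^ (2 * (i + 1)) :=
        mul_le_mul h4 (pow_le_pow_right₀ hM (by omega)) (by positivity) (by positivity)
    _ = (2 * M ^ 2) ^ (i + 1) := by rw [mul_pow, ← pow_mul]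

theorem geo_C (z : ℂ) : Geo (C z) := by
  refine ⟨1 + ‖z‖, fun i => ?_⟩
  rw [coeff_C]
  have h0 : (0 : ℝ) ≤ ‖z‖ := norm_nonneg z
  split_ifs with h
  · subst h
    rw [zero_add, pow_one]
    linarith
  · rw [norm_zero]
    positivity

/-- The inverse: `|f_i| ≤ B^(i+1)`, `f_0 = 1` (after division by a constant): `|g_i| ≤ (2 B²)^i` .. by induction. -/
theorem geo_inv {F G : ℂ⟦X⟧} (hF : Geo F) (h : F * G = 1) : Geo G := by
  obtain ⟨M0, hM0, h1'⟩ := b4_norm hF
  set M := max M0 ‖coeff 0 G‖ with hMdef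
  have hM : 1 ≤ M := hM0.trans (le_max_left _ _)
  have h1 : ∀ i, ‖coeff i F‖ ≤ M ^ (i + 1) := fun i => (h1' i).trans
    (pow_le_pow_left₀ (by linarith) (le_max_left _ _) _)
  have hg0 : ‖coeff 0 G‖ ≤ M := le_max_right _ _
  have h0 : coeff 0 F * coeff 0 G = 1 := by
    have h2 := congrArg (coeff 0) h
    rw [coeff_mul] at h2
    simpa using h2
  have hM' : 0 ≤ M := by linarith
  set N := M + M ^ 3 with hN
  have hN0 : 0 ≤ N := by positivity
  have hMN : M ≤ N := by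
    have : 0 ≤ M ^ 3 := by positivity
    linarith
  have key : ∀ i, ‖coeff i G‖ ≤ M * N ^ i := by
    intro i
    induction i using Nat.strong_induction_on with
    | _ i ih =>
      rcases Nat.eq_zero_or_pos i with hi | hi
      · subst hi
        rw [pow_zero, mul_one]
        exact hg0
      · have h2 := congrArg (coeff i) h
        rw [coeff_mul, coeff_one, if_neg (by omega),
          Finset.Nat.sum_antidiagonal_eq_sum_range_succ (fun j k => coeff j F * coeff k G) i,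
          Finset.sum_range_succ'] at h2
        have h3 : coeff i G = -(coeff 0 G * ∑ k ∈ Finset.range i, coeff (k + 1) F * coeff (i - (k + 1)) G) := by
          have h4 : coeff 0 F * coeff i G = -∑ k ∈ Finset.range i, coeff (k + 1) F * coeff (i - (k + 1)) G := by
            rw [Nat.sub_zero] at h2
            exact eq_neg_of_add_eq_zero_right h2
          calc coeff i G = (coeff 0 F * coeff 0 G) * coeff i G := by rw [h0, one_mul]
            _ = coeff 0 G * (coeff 0 F * coeff i G) := by ring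
            _ = _ := by rw [h4]; ring
        have h5 : ‖∑ k ∈ Finset.range i, coeff (k + 1) F * coeff (i - (k + 1)) G‖ ≤
            M ^ 3 * ∑ k ∈ Finset.range i, M ^ k * N ^ (i - 1 - k) := by
          refine (norm_sum_le _ _).trans ?_
          rw [Finset.mul_sum]
          refine Finset.sum_le_sum fun k hk => ?_
          rw [Finset.mem_range] at hk
          rw [norm_mul]
          have h6 := ih (i - (k + 1)) (by omega)
          have h7 : i - (k + 1) = i - 1 - k := by omega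
          calc ‖coeff (k + 1) F‖ * ‖coeff (i - (k + 1)) G‖ ≤ M ^ (k + 1 + 1) * (M * N ^ (i - (k + 1))) :=
                mul_le_mul (h1 _) h6 (norm_nonneg _) (by positivity)
            _ = M ^ 3 * (M ^ k * N ^ (i - 1 - k)) := by rw [h7]; ring
        have h8 : M ^ 3 * ∑ k ∈ Finset.range i, M ^ k * N ^ (i - 1 - k) = N ^ i - M ^ i := by
          have h9 := geom_sum₂_mul M N i
          have h10 : M - N = -M ^ 3 := by rw [hN]; ring
          rw [h10] at h9
          linarith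
        rw [h3, norm_neg, norm_mul]
        have h11 : 0 ≤ M ^ i := by positivity
        calc ‖coeff 0 G‖ * ‖∑ k ∈ Finset.range i, coeff (k + 1) F * coeff (i - (k + 1)) G‖
            ≤ M * (N ^ i - M ^ i) := by
              rw [← h8]
              exact mul_le_mul hg0 h5 (norm_nonneg _) hM'
          _ ≤ M * N ^ i := mul_le_mul_of_nonneg_left (by linarith) hM'
  refine ⟨N, fun i => (key i).trans ?_⟩
  rw [pow_succ, mul_comm]
  exact mul_le_mul_of_nonneg_left hMN (by positivity)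

theorem geo_of_ag {F : ℂ⟦X⟧} (hF : AG F) : Geo F := by
  obtain ⟨B, hB⟩ := hF
  refine ⟨|B|, fun i => (hB i).trans ?_⟩
  have h1 : (1 : ℝ) ≤ Real.sqrt (i.factorial) := by
    rw [Real.one_le_sqrt]
    exact_mod_cast Nat.one_le_iff_ne_zero.2 (Nat.factorial_ne_zero i)
  calc B ^ (i + 1) / Real.sqrt (i.factorial) ≤ |B ^ (i + 1)| / Real.sqrt (i.factorial) :=
        div_le_div_of_nonneg_right (le_abs_self _) (by linarith)
    _ ≤ |B ^ (i + 1)| := div_le_self (abs_nonneg _) h1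
    _ = |B| ^ (i + 1) := abs_pow _ _

theorem geo_sc {F : ℂ⟦X⟧} (hF : Geo F) (p : ℂ) : Geo (sc p F) := by
  obtain ⟨M, hM, h1⟩ := b4_norm hF
  refine ⟨(1 + ‖p‖) * M, fun i => ?_⟩
  have hc : coeff i (sc p F) = p ^ i * coeff i F := by
    simp [sc]
  have hp : 0 ≤ ‖p‖ := norm_nonneg p
  rw [hc, norm_mul, norm_pow, mul_pow]
  refine mul_le_mul ?_ (h1 i) (norm_nonneg _) (by positivity)
  calc ‖p‖ ^ i ≤ (1 + ‖p‖) ^ i := pow_le_pow_left₀ hp (by linarith) _
    _ ≤ (1 + ‖p‖) ^ (i + 1) := pow_le_pow_right₀ (by linarith) (by omega)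

/-- `X * F` -/
theorem geo_of_X {F : ℂ⟦X⟧} (hF : Geo (X * F)) : Geo F := by
  obtain ⟨M, hM, h1⟩ := b4_norm hF
  refine ⟨M ^ 2, fun i => ?_⟩
  have h2 := h1 (i + 1)
  rw [coeff_succ_X_mul] at h2
  refine h2.trans ?_
  rw [← pow_mul]
  exact pow_le_pow_right₀ hM (by omega)

/-- All series of the curve: `rho = - Y / X`, `t = U / rho`, `xi = X / rho²`, `v = t² / xi`, `t g = Z / rho - 1` and `g = (t g / X) (X / t)`
(`t = X + ...`); `ag_main`. -/
theorem geo_ser {a c : ℂ} (S : Ser ℂ a c) : Geo S.rho ∧ Geo S.t ∧ Geo S.v ∧ Geo S.g ∧ Geo S.xi := by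
  obtain ⟨hU, hX, hY, hZ⟩ := ag_main a c S
  have gU := geo_of_ag hU
  have gX := geo_of_ag hX
  have gY := geo_of_ag hY
  have gZ := geo_of_ag hZ
  have xi0 : constantCoeff S.xi = 1 := by
    simp [Ser.xi, S.t0]
  have X0 : constantCoeff S.X = 1 := by
    simp [Ser.X, xi0, S.rho0]
  have hXi : S.X * S.X⁻¹ = 1 := PowerSeries.mul_inv_cancel _ (by rw [X0]; exact one_ne_zero)
  have hRi : S.rho * S.rho⁻¹ = 1 := PowerSeries.mul_inv_cancel _ (by rw [S.rho0]; exact one_ne_zero)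
  have hxi : S.xi * S.xi⁻¹ = 1 := PowerSeries.mul_inv_cancel _ (by rw [xi0]; exact one_ne_zero)
  have grho : Geo S.rho := by
    have h : S.rho = -S.Y * S.X⁻¹ := by
      have h2 : -S.Y = S.rho * S.X := by
        unfold Ser.Y Ser.X
        ring
      rw [h2, mul_assoc, hXi, mul_one]
    rw [h]
    exact geo_mul (geo_neg gY) (geo_inv gX hXi)
  have grhoi : Geo S.rho⁻¹ := geo_inv grho hRi
  have gt : Geo S.t := by
    have h : S.t = S.U * S.rho⁻¹ := by
      unfold Ser.U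
      linear_combination -S.t * hRi
    rw [h]
    exact geo_mul gU grhoi
  have gxi : Geo S.xi := by
    have h : S.xi = S.X * (S.rho⁻¹ * S.rho⁻¹) := by
      unfold Ser.X
      linear_combination (-S.xi * (S.rho * S.rho⁻¹ + 1)) * hRi
    rw [h]
    exact geo_mul gX (geo_mul grhoi grhoi)
  have gv : Geo S.v := by
    have h1 : S.v * S.xi = S.t ^ 2 := by
      have h2 := S.hv
      unfold Ser.xi
      linear_combination h2
    have h : S.v = S.t * S.t * S.xi⁻¹ := by
      linear_combination (-S.v) * hxi + S.xi⁻¹ * h1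
    rw [h]
    exact geo_mul (geo_mul gt gt) (geo_inv gxi hxi)
  have gg : Geo S.g := by
    have h1 : S.t * S.g = S.Z * S.rho⁻¹ - 1 := by
      unfold Ser.Z
      linear_combination (-(1 + S.t * S.g)) * hRi
    have g1 : Geo (S.t * S.g) := by
      rw [h1, sub_eq_add_neg]
      refine geo_add (geo_mul gZ grhoi) (geo_neg ?_)
      have := geo_C 1
      rwa [map_one] at this
    obtain ⟨t', ht'⟩ := X_dvd_iff.2 S.t0
    have gt' : Geo t' := geo_of_X (by rw [← ht']; exact gt)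
    have gtg : Geo (t' * S.g) := geo_of_X (by rw [← mul_assoc, ← ht']; exact g1)
    have h0 : constantCoeff t' = 1 := by
      have h2 := congrArg constantCoeff S.ht
      have h3 : constantCoeff (d⁄dX ℂ S.t) = coeff 1 S.t := by
        rw [← coeff_zero_eq_constantCoeff_apply, coeff_derivative]
        simp
      rw [h3, ht'] at h2
      have h4 : coeff 1 (X * t') = constantCoeff t' := by
        rw [show (1 : ℕ) = 0 + 1 from rfl, coeff_succ_X_mul, coeff_zero_eq_constantCoeff_apply]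
      rw [h4] at h2
      rw [h2]
      simp
    have hti : t' * t'⁻¹ = 1 := PowerSeries.mul_inv_cancel _ (by rw [h0]; exact one_ne_zero)
    have h : S.g = (t' * S.g) * t'⁻¹ := by
      linear_combination (-S.g) * hti
    rw [h]
    exact geo_mul gtg (geo_inv gt' hti)
  exact ⟨grho, gt, gv, gg, gxi⟩

end Pool.Agent.H57G
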