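import Pool.Agent.Lib.H57G.B1

/-!
# B5: the series `Psi`
-/

set_option autoImplicit false

open PowerSeries H47E

namespace Pool.Agent.H57G

theorem sc_eq {k : Type} [CommRing k] (p : k) (f : k⟦X⟧) : sc p f = PowerSeries.rescale p f := by
  ext i
  rw [sc, coeff_mk, coeff_rescale]

variable {n : ℕ} {K : Type} [Field K] {a c : K} (S : Ser K a c) (p : Fin n → K) (v0 : ℕ)

theorem b5_inner {k : Type} [Field k] {a c : k} (S : Ser k a c) (v0 : ℕ) (i : Ix) (h1 : tA i) (h2 : wt i ≤ v0) :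
    S.U ^ (v0 - (wt i).toNat) * S.X ^ (i.1 - (i.2.1 : ℕ)).toNat * S.Y ^ (i.2.1 : ℕ) * S.Z ^ i.2.2 =
      S.rho ^ v0 * (S.t ^ (v0 - (wt i).toNat) * S.xi ^ (i.1 - (i.2.1 : ℕ)).toNat * (-S.xi) ^ (i.2.1 : ℕ) *
        (1 + S.t * S.g) ^ i.2.2) := by
  obtain ⟨x, e, κ⟩ := i
  unfold tA at h1
  unfold wt at h2 ⊢
  dsimp only at h1 h2 ⊢
  set m := v0 - (2 * x + (e : ℕ) + (κ : ℤ)).toNat with hm
  set b := (x - ((e : ℕ) : ℤ)).toNat with hb
  have h3 : v0 = m + 2 * b + 3 * (e : ℕ) + κ := by omega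
  rw [h3]
  have hY : S.Y = S.rho ^ 3 * (-S.xi) := by rw [Ser.Y]; ring
  rw [hY, Ser.U, Ser.X, Ser.Z]
  rw [mul_pow, mul_pow, mul_pow, mul_pow, ← pow_mul, ← pow_mul]
  ring

theorem b5_sc_mul {k : Type} [CommRing k] (p : k) (f g : k⟦X⟧) : sc p (f * g) = sc p f * sc p g := by
  rw [sc_eq, sc_eq, sc_eq, map_mul]

/-- `2 (i - e) + 3 e + k = wt`. -/
theorem psA_eq (I : Fin n → Ix) (hI : ∀ j, tA (I j) ∧ wt (I j) ≤ v0) : psA S p v0 I = xi0 S p v0 * psP S p v0 I := by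
  unfold psA xi0 psP
  rw [← Finset.prod_mul_distrib]
  refine Finset.prod_congr rfl fun j _ => ?_
  rw [b5_inner S v0 (I j) (hI j).1 (hI j).2, b5_sc_mul]

/-- `t = X + ...`, `rho(0) = 1`: all factors are non-zero. -/
theorem xi0_ne (S : Ser K a c) (p : Fin n → K) (v0 : ℕ) : xi0 S p v0 ≠ 0 := by
  unfold xi0
  rw [Finset.prod_ne_zero_iff]
  intro j _ h
  have h1 : constantCoeff (sc (p j) (S.rho ^ v0)) = 1 := by
    rw [← coeff_zero_eq_constantCoeff_apply, sc, coeff_mk, pow_zero, one_mul, coeff_zero_eq_constantCoeff_apply, map_pow,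
      S.rho0, one_pow]
  rw [h, map_zero] at h1
  exact zero_ne_one h1

theorem b5_map_sc {k k' : Type} [CommRing k] [CommRing k'] (σ : k →+* k') (x : k) (f : k⟦X⟧) :
    PowerSeries.map σ (sc x f) = sc (σ x) (PowerSeries.map σ f) := by
  ext i
  rw [coeff_map, sc, sc, coeff_mk, coeff_mk, map_mul, map_pow, coeff_map]

theorem b5_mapU {k k' : Type} [Field k] [Field k'] {a c : k} (S : Ser k a c) (σ : k →+* k') :
    PowerSeries.map σ S.U = (S.map σ).U := by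
  simp only [Ser.U, Ser.map, map_mul]

theorem b5_mapxi {k k' : Type} [Field k] [Field k'] {a c : k} (S : Ser k a c) (σ : k →+* k') :
    PowerSeries.map σ S.xi = (S.map σ).xi := by
  simp only [Ser.xi, Ser.map, map_mul, map_sub, map_pow, map_one, PowerSeries.map_C]

theorem b5_mapX {k k' : Type} [Field k] [Field k'] {a c : k} (S : Ser k a c) (σ : k →+* k') :
    PowerSeries.map σ S.X = (S.map σ).X := by
  rw [Ser.X, Ser.X, map_mul, b5_mapxi, map_pow]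
  rfl

theorem b5_mapY {k k' : Type} [Field k] [Field k'] {a c : k} (S : Ser k a c) (σ : k →+* k') :
    PowerSeries.map σ S.Y = (S.map σ).Y := by
  rw [Ser.Y, Ser.Y, map_neg, map_mul, b5_mapxi, map_pow]
  rfl

theorem b5_mapZ {k k' : Type} [Field k] [Field k'] {a c : k} (S : Ser k a c) (σ : k →+* k') :
    PowerSeries.map σ S.Z = (S.map σ).Z := by
  rw [Ser.Z, Ser.Z, map_mul, map_add, map_mul, map_one]
  rfl

theorem map_ser (σ : K →+* ℂ) (x : K) : PowerSeries.map σ (sc x S.U) = sc (σ x) (S.map σ).U ∧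
    PowerSeries.map σ (sc x S.X) = sc (σ x) (S.map σ).X ∧ PowerSeries.map σ (sc x S.Y) = sc (σ x) (S.map σ).Y ∧
    PowerSeries.map σ (sc x S.Z) = sc (σ x) (S.map σ).Z ∧ PowerSeries.map σ (sc x S.t) = sc (σ x) (S.map σ).t ∧
    PowerSeries.map σ (sc x S.v) = sc (σ x) (S.map σ).v ∧ PowerSeries.map σ (sc x S.g) = sc (σ x) (S.map σ).g ∧
    PowerSeries.map σ (sc x S.rho) = sc (σ x) (S.map σ).rho := by
  refine ⟨?_, ?_, ?_, ?_, ?_, ?_, ?_, ?_⟩
  · rw [b5_map_sc, b5_mapU]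
  · rw [b5_map_sc, b5_mapX]
  · rw [b5_map_sc, b5_mapY]
  · rw [b5_map_sc, b5_mapZ]
  · rw [b5_map_sc]; rfl
  · rw [b5_map_sc]; rfl
  · rw [b5_map_sc]; rfl
  · rw [b5_map_sc]; rfl

theorem b5_ag_one : AG (1 : ℂ⟦X⟧) := by
  have h := AG.const 1
  rwa [map_one] at h

theorem b5_val_one (z : ℂ) : val (1 : ℂ⟦X⟧) z = 1 := by
  unfold val
  rw [tsum_eq_single 0]
  · simp
  · intro i hi
    rw [coeff_one, if_neg hi, zero_mul]

theorem b5_ag_pow {F : ℂ⟦X⟧} (hF : AG F) (m : ℕ) : AG (F ^ m) := by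
  induction m with
  | zero => rw [pow_zero]; exact b5_ag_one
  | succ m ih => rw [pow_succ]; exact ih.mul hF

theorem b5_val_pow {F : ℂ⟦X⟧} (hF : AG F) (m : ℕ) (z : ℂ) : val (F ^ m) z = val F z ^ m := by
  induction m with
  | zero => rw [pow_zero, pow_zero]; exact b5_val_one z
  | succ m ih => rw [pow_succ, pow_succ, val_mul (b5_ag_pow hF m) hF, ih]

theorem b5_ag_prod {α : Type} (s : Finset α) (F : α → ℂ⟦X⟧) (hF : ∀ i ∈ s, AG (F i)) : AG (∏ i ∈ s, F i) := by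
  classical
  induction s using Finset.induction_on with
  | empty => rw [Finset.prod_empty]; exact b5_ag_one
  | insert a s has ih =>
    rw [Finset.prod_insert has]
    exact (hF a (Finset.mem_insert_self _ _)).mul (ih fun i hi => hF i (Finset.mem_insert_of_mem hi))

theorem b5_val_prod {α : Type} (s : Finset α) (F : α → ℂ⟦X⟧) (hF : ∀ i ∈ s, AG (F i)) (z : ℂ) :
    val (∏ i ∈ s, F i) z = ∏ i ∈ s, val (F i) z := by
  classical
  induction s using Finset.induction_on with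
  | empty => rw [Finset.prod_empty, Finset.prod_empty]; exact b5_val_one z
  | insert a s has ih =>
    rw [Finset.prod_insert has, Finset.prod_insert has,
      val_mul (hF a (Finset.mem_insert_self _ _)) (b5_ag_prod s F fun i hi => hF i (Finset.mem_insert_of_mem hi)),
      ih fun i hi => hF i (Finset.mem_insert_of_mem hi)]

theorem b5_half {L : PeriodPair} {w : ℂ} (h : 2 * w ∉ L.lattice) : w ∉ L.lattice := fun h1 =>
  h (by rw [two_mul]; exact add_mem h1 h1)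

theorem b5_uu (ι : K →+* ℂ) (z : ℂ) :
    val (PowerSeries.map ι (uu S p v0)) z = ∏ j, val (S.map ι).U (ι (p j) * z) ^ v0 := by
  have hU := (ag_main (ι a) (ι c) (S.map ι)).1
  unfold uu
  rw [map_prod]
  have h1 : ∀ j, PowerSeries.map ι (sc (p j) (S.U ^ v0)) = sc (ι (p j)) ((S.map ι).U ^ v0) := by
    intro j
    rw [b5_map_sc, map_pow, b5_mapU]
  rw [Finset.prod_congr rfl fun j _ => h1 j, b5_val_prod _ _ fun j _ => (b5_ag_pow hU v0).sc _]
  refine Finset.prod_congr rfl fun j _ => ?_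
  rw [val_sc (b5_ag_pow hU v0), b5_val_pow hU]

/-- The value: `∏ val U (p_j z)^v0` times the value of the monomial. (`link_X`, `link_Y`, `link_Z`, `ev_mon`, `val_mul`, `val_sc`.) -/
theorem psA_val (ι : K →+* ℂ) {L : PeriodPair} {e : ℂ} (N : Norm L e (ι a) (ι c)) (I : Fin n → Ix)
    (hI : ∀ j, tA (I j) ∧ wt (I j) ≤ v0) (z : ℂ) (hz : z ∈ Om ι L p) :
    val (PowerSeries.map ι (psA S p v0 I)) z = val (PowerSeries.map ι (uu S p v0)) z * Fz ι N p (mon a c K I) z := by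
  have hz' : ∀ j, 2 * (ι (p j) * z) ∉ L.lattice := hz
  have hF : Fz ι N p (mon a c K I) z = ev ι N (fun j => ι (p j) * z) hz' (mon a c K I) := by
    unfold Fz
    exact dif_pos hz'
  obtain ⟨hU, hX, hY, hZ⟩ := ag_main (ι a) (ι c) (S.map ι)
  rw [hF, ev_mon ι N _ hz' I (fun j => (hI j).1), b5_uu]
  unfold psA
  rw [map_prod]
  have hA : ∀ j, AG ((S.map ι).U ^ (v0 - (wt (I j)).toNat) * (S.map ι).X ^ ((I j).1 - ((I j).2.1 : ℕ)).toNat) :=
    fun j => (b5_ag_pow hU _).mul (b5_ag_pow hX _)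
  have hB : ∀ j, AG ((S.map ι).U ^ (v0 - (wt (I j)).toNat) * (S.map ι).X ^ ((I j).1 - ((I j).2.1 : ℕ)).toNat *
      (S.map ι).Y ^ ((I j).2.1 : ℕ)) := fun j => (hA j).mul (b5_ag_pow hY _)
  have hC : ∀ j, AG ((S.map ι).U ^ (v0 - (wt (I j)).toNat) * (S.map ι).X ^ ((I j).1 - ((I j).2.1 : ℕ)).toNat *
      (S.map ι).Y ^ ((I j).2.1 : ℕ) * (S.map ι).Z ^ (I j).2.2) := fun j => (hB j).mul (b5_ag_pow hZ _)
  have h1 : ∀ j, PowerSeries.map ι (sc (p j) (S.U ^ (v0 - (wt (I j)).toNat) * S.X ^ ((I j).1 - ((I j).2.1 : ℕ)).toNat *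
      S.Y ^ ((I j).2.1 : ℕ) * S.Z ^ (I j).2.2)) = sc (ι (p j)) ((S.map ι).U ^ (v0 - (wt (I j)).toNat) *
      (S.map ι).X ^ ((I j).1 - ((I j).2.1 : ℕ)).toNat * (S.map ι).Y ^ ((I j).2.1 : ℕ) * (S.map ι).Z ^ (I j).2.2) := by
    intro j
    rw [b5_map_sc, map_mul, map_mul, map_mul, map_pow, map_pow, map_pow, map_pow, b5_mapU, b5_mapX, b5_mapY, b5_mapZ]
  rw [Finset.prod_congr rfl fun j _ => h1 j, b5_val_prod _ _ fun j _ => (hC j).sc _, ← Finset.prod_mul_distrib]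
  refine Finset.prod_congr rfl fun j _ => ?_
  have hw := b5_half (hz' j)
  rw [val_sc (hC j), val_mul (hB j) (b5_ag_pow hZ _), val_mul (hA j) (b5_ag_pow hY _),
    val_mul (b5_ag_pow hU _) (b5_ag_pow hX _), b5_val_pow hU, b5_val_pow hX, b5_val_pow hY, b5_val_pow hZ,
    link_X N (S.map ι) hw, link_Y N (S.map ι) hw, link_Z N (S.map ι) hw]
  obtain ⟨h2, h3⟩ := hI j
  generalize I j = i at h2 h3
  obtain ⟨x, d, κ⟩ := i
  unfold tA at h2
  unfold wt at h3 ⊢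
  dsimp only at h2 h3 ⊢
  generalize val (S.map ι).U (ι (p j) * z) = u
  generalize xf L e (ι (p j) * z) = X
  generalize yf L (ι (p j) * z) = Y
  generalize wf L e (ι (p j) * z) = W
  set m := v0 - (2 * x + (d : ℕ) + (κ : ℤ)).toNat with hm
  set b := (x - ((d : ℕ) : ℤ)).toNat with hb
  have h4 : v0 = m + 2 * b + 3 * (d : ℕ) + κ := by omega
  rw [h4, mul_pow, mul_pow, mul_pow, ← pow_mul, ← pow_mul]
  ring

theorem uu_ne (ι : K →+* ℂ) {L : PeriodPair} {e : ℂ} (N : Norm L e (ι a) (ι c)) (z : ℂ) (hz : z ∈ Om ι L p) :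
    val (PowerSeries.map ι (uu S p v0)) z ≠ 0 := by
  rw [b5_uu, Finset.prod_ne_zero_iff]
  intro j _
  exact pow_ne_zero _ (link_U N (S.map ι) (b5_half (hz j)))

end Pool.Agent.H57G
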