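import Pool.Agent.Lib.H57G.B5

/-!
# B6: the rings of series with small coefficients at all embeddings, and with small denominators
-/

set_option autoImplicit false

open PowerSeries H47E

namespace Pool.Agent.H57G

variable (K : Type) [Field K]

/-- `AG` at all embeddings. -/
def agR : Subring K⟦X⟧ where
  carrier := {F | ∀ σ : K →+* ℂ, AG (PowerSeries.map σ F)}
  mul_mem' := by
    intro F G hF hG σ
    rw [map_mul]
    exact (hF σ).mul (hG σ)
  one_mem' := by
    intro σ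
    rw [map_one, ← map_one (C (R := ℂ))]
    exact AG.const 1
  add_mem' := by
    intro F G hF hG σ
    rw [map_add]
    exact (hF σ).add (hG σ)
  zero_mem' := by
    intro σ
    rw [map_zero, ← map_zero (C (R := ℂ))]
    exact AG.const 0
  neg_mem' := by
    intro F hF σ
    obtain ⟨B, hB⟩ := hF σ
    refine ⟨B, fun i => ?_⟩
    rw [map_neg, map_neg, norm_neg]
    exact hB i

theorem mem_agR (F : K⟦X⟧) : F ∈ agR K ↔ ∀ σ : K →+* ℂ, AG (PowerSeries.map σ F) := Iff.rfl

variable {K} in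
/-- `ag_main`, `map_ser`. -/
theorem agR_gen {a c : K} (S : Ser K a c) (x : K) :
    sc x S.U ∈ agR K ∧ sc x S.X ∈ agR K ∧ sc x S.Y ∈ agR K ∧ sc x S.Z ∈ agR K ∧ C x ∈ agR K := by
  refine ⟨fun σ => ?_, fun σ => ?_, fun σ => ?_, fun σ => ?_, fun σ => ?_⟩
  · rw [(map_ser S σ x).1]
    exact ((ag_main _ _ (S.map σ)).1).sc (σ x)
  · rw [(map_ser S σ x).2.1]
    exact ((ag_main _ _ (S.map σ)).2.1).sc (σ x)
  · rw [(map_ser S σ x).2.2.1]
    exact ((ag_main _ _ (S.map σ)).2.2.1).sc (σ x)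
  · rw [(map_ser S σ x).2.2.2.1]
    exact ((ag_main _ _ (S.map σ)).2.2.2).sc (σ x)
  · rw [PowerSeries.map_C]
    exact AG.const _

/-- The series with small denominators. -/
def pdR [NumberField K] (M : ℕ) (hM : 0 < M) (Q : Set ℕ) (hQ : ∀ q ∈ Q, q.Prime) : Subring K⟦X⟧ where
  carrier := {F | ∃ k : ℕ, PD K M Q k F}
  mul_mem' := by
    rintro F G ⟨k, hF⟩ ⟨l, hG⟩
    exact ⟨k + l, hF.mul hM hQ hG⟩
  one_mem' := by
    refine ⟨0, ?_⟩
    rw [← map_one (C (R := K))]
    exact PD.const (j := 0) (by rw [pow_zero, mul_one]; exact isIntegral_one)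
  add_mem' := by
    rintro F G ⟨k, hF⟩ ⟨l, hG⟩
    exact ⟨max k l, hF.add hG⟩
  zero_mem' := by
    refine ⟨0, ?_⟩
    rw [← map_zero (C (R := K))]
    exact PD.const (j := 0) (by rw [mul_zero]; exact isIntegral_zero)
  neg_mem' := by
    rintro F ⟨k, hF⟩
    refine ⟨0 + k, ?_⟩
    have h : PD K M Q 0 (C (-1 : K)) := PD.const (j := 0) (by rw [pow_zero, one_mul]; exact isIntegral_one.neg)
    have h2 := h.mul hM hQ hF
    have e : -F = C (-1 : K) * F := by rw [map_neg, map_one, neg_one_mul]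
    rw [e]
    exact h2

/-- Common denominators of finitely many elements of `pdR` (`pd_dens`, `PD.mono`). -/
theorem pdR_dens [NumberField K] (M : ℕ) (hM : 0 < M) (Q : Set ℕ) (hQ : Half Q) {β : Type} [Finite β] (f : β → K⟦X⟧)
    (hf : ∀ i, f i ∈ pdR K M hM Q hQ.1) : ∃ d : ℕ → ℕ, Dens d ∧ ∀ i, HasDen K d (f i) := by
  have hf' : ∀ i, ∃ k : ℕ, PD K M Q k (f i) := hf
  choose k hk using hf'
  obtain ⟨m, hm⟩ := Finite.exists_le k
  exact pd_dens hM hQ m f fun i => (hk i).mono (hm i)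

end Pool.Agent.H57G
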