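import Pool.Agent.Lib.H57G.Defs
import Pool.Agent.Lib.H47E.A
import Pool.Agent.Lib.H47E.E1j

/-!
# B7: the dimension of the space of values
-/

set_option autoImplicit false

open H47E

namespace Pool.Agent.H57G

theorem b7_card (σ : Type) [Fintype σ] (M : ℕ) :
    Nat.card {n : σ →₀ ℕ | ∀ i, n i ≤ M} = (M + 1) ^ Fintype.card σ := by
  classical
  have e : {n : σ →₀ ℕ | ∀ i, n i ≤ M} ≃ (σ → Fin (M + 1)) :=
    { toFun := fun n i => ⟨n.1 i, Nat.lt_succ_of_le (n.2 i)⟩
      invFun := fun g => ⟨Finsupp.equivFunOnFinite.symm fun i => (g i : ℕ), fun i => by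
        simpa using Nat.le_of_lt_succ (g i).2⟩
      left_inv := fun n => by
        apply Subtype.ext
        ext i
        simp
      right_inv := fun g => by
        funext i
        apply Fin.ext
        simp }
  rw [Nat.card_congr e, Nat.card_eq_fintype_card, Fintype.card_fun, Fintype.card_fin]

theorem b7_finrank (σ K : Type) [Field K] [Fintype σ] (M : ℕ) :
    Module.finrank K (MvPolynomial.restrictDegree σ K M) = (M + 1) ^ Fintype.card σ := by
  rw [← b7_card σ M]
  exact Module.finrank_eq_nat_card_basis (MvPolynomial.basisRestrictSupport K _)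

theorem b7_mem {σ K : Type} [Field K] (M : ℕ) (p : MvPolynomial σ K) :
    p ∈ MvPolynomial.restrictDegree σ K M ↔ ∀ i, MvPolynomial.degreeOf i p ≤ M := by
  rw [MvPolynomial.mem_restrictDegree]
  constructor
  · intro h i
    rw [MvPolynomial.degreeOf_le_iff]
    exact fun m hm => h m hm i
  · intro h m hm i
    exact MvPolynomial.degreeOf_le_iff.1 (h i) m hm

/-- Dimension of the values of the polynomials of degree at most `M` in every variable at a point which satisfies an equation of
degree at most `δ` in every variable.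

Proof. The kernel of `aeval s` on `restrictDegree` (dimension `(M + 1)^#σ`) contains `Q * restrictDegree (M - δ)`. -/
theorem dim_values {K A σ : Type} [Field K] [CommRing A] [Algebra K A] [Fintype σ] (s : σ → A) (Q : MvPolynomial σ K)
    (hQ : Q ≠ 0) (hs : MvPolynomial.aeval s Q = 0) (δ M : ℕ) (hδ : ∀ i, MvPolynomial.degreeOf i Q ≤ δ) (hM : δ ≤ M) :
    Module.finrank K ((MvPolynomial.restrictDegree σ K M).map (MvPolynomial.aeval s).toLinearMap) +
      (M - δ + 1) ^ Fintype.card σ ≤ (M + 1) ^ Fintype.card σ := by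
  classical
  set V := MvPolynomial.restrictDegree σ K M with hV
  set f : V →ₗ[K] A := (MvPolynomial.aeval s).toLinearMap.domRestrict V with hf
  have h1 : V.map (MvPolynomial.aeval s).toLinearMap = LinearMap.range f := by
    rw [hf, LinearMap.range_domRestrict]
  have h2 : ∀ q : MvPolynomial.restrictDegree σ K (M - δ), Q * (q : MvPolynomial σ K) ∈ V := by
    intro q
    rw [hV, b7_mem]
    intro i
    have h3 := (b7_mem _ _).1 q.2 i
    have h4 := MvPolynomial.degreeOf_mul_le i Q (q : MvPolynomial σ K)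
    have h5 := hδ i
    omega
  let g0 : MvPolynomial.restrictDegree σ K (M - δ) →ₗ[K] MvPolynomial σ K :=
    (LinearMap.mulLeft K Q).comp (MvPolynomial.restrictDegree σ K (M - δ)).subtype
  let g1 : MvPolynomial.restrictDegree σ K (M - δ) →ₗ[K] V := g0.codRestrict V h2
  have h6 : ∀ q, g1 q ∈ LinearMap.ker f := by
    intro q
    rw [LinearMap.mem_ker]
    show MvPolynomial.aeval s (Q * (q : MvPolynomial σ K)) = 0
    rw [map_mul, hs, zero_mul]
  let g2 : MvPolynomial.restrictDegree σ K (M - δ) →ₗ[K] LinearMap.ker f := g1.codRestrict _ h6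
  have h7 : Function.Injective g2 := by
    intro q q' h
    have h8 : Q * (q : MvPolynomial σ K) = Q * (q' : MvPolynomial σ K) :=
      congrArg (fun x : LinearMap.ker f => ((x : V) : MvPolynomial σ K)) h
    exact Subtype.ext (mul_left_cancel₀ hQ h8)
  have h9 := LinearMap.finrank_le_finrank_of_injective h7
  have h10 := LinearMap.finrank_range_add_finrank_ker f
  rw [b7_finrank] at h9
  rw [h1, ← b7_finrank σ K M, ← hV, ← h10]
  omega

/-- Bernoulli. -/
theorem pow_sub_le (k M δ : ℕ) (hM : δ ≤ M) : (M + 1) ^ k ≤ (M - δ + 1) ^ k + k * δ * (M + 1) ^ (k - 1) := by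
  induction k with
  | zero => simp
  | succ k ih =>
    obtain ⟨m, rfl⟩ := Nat.exists_eq_add_of_le hM
    have e : δ + m - δ = m := by omega
    rw [e] at ih ⊢
    have h1 : (m + 1) ^ k ≤ (δ + m + 1) ^ k := Nat.pow_le_pow_left (by omega) k
    have h2 : k * δ * (δ + m + 1) ^ (k - 1) * (δ + m + 1) = k * δ * (δ + m + 1) ^ k := by
      rcases Nat.eq_zero_or_pos k with rfl | hk
      · simp
      · rw [mul_assoc, ← pow_succ, Nat.sub_add_cancel hk]
    rw [Nat.add_sub_cancel]
    calc (δ + m + 1) ^ (k + 1) = (δ + m + 1) ^ k * (δ + m + 1) := pow_succ _ _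
      _ ≤ ((m + 1) ^ k + k * δ * (δ + m + 1) ^ (k - 1)) * (δ + m + 1) := Nat.mul_le_mul_right _ ih
      _ = (m + 1) ^ k * (m + 1) + (m + 1) ^ k * δ + k * δ * (δ + m + 1) ^ k := by
        rw [add_mul, h2]; ring
      _ ≤ (m + 1) ^ k * (m + 1) + (δ + m + 1) ^ k * δ + k * δ * (δ + m + 1) ^ k := by
        have := Nat.mul_le_mul_right δ h1
        omega
      _ = (m + 1) ^ (k + 1) + (k + 1) * δ * (δ + m + 1) ^ k := by ring

/-- `SpanDim` from the dimension of a space which contains the values. -/
theorem spanDim_of {K : Type} [Field K] (ι : K →+* ℂ) {bx : Type} [Finite bx] (θ : bx → ℂ) (ℓ : ℕ)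
    (h : letI := ι.toAlgebra; ∃ W : Submodule K ℂ, FiniteDimensional K W ∧ Module.finrank K W ≤ ℓ ∧ ∀ b, θ b ∈ W) :
    SpanDim ι θ ℓ := by
  classical
  letI := ι.toAlgebra
  obtain ⟨W, hW, hl, hθ⟩ := h
  obtain ⟨κ, a, ha, hsp, hli⟩ := exists_linearIndependent' K θ
  haveI : Finite κ := Finite.of_injective a ha
  haveI := Fintype.ofFinite κ
  let w : κ → W := fun k => ⟨θ (a k), hθ _⟩
  have h1 : LinearIndependent K w := by
    refine LinearIndependent.of_comp W.subtype ?_
    exact hli
  have h2 := h1.fintype_card_le_finrank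
  refine ⟨Finset.univ.image a, (Finset.card_image_le.trans (by simpa using h2)).trans hl, fun b => ?_⟩
  have h3 : θ b ∈ Submodule.span K (Set.range (θ ∘ a)) := by
    rw [hsp]
    exact Submodule.subset_span ⟨b, rfl⟩
  rw [Submodule.mem_span_range_iff_exists_fun] at h3
  obtain ⟨c, hc⟩ := h3
  refine ⟨Function.extend a c 0, ?_⟩
  rw [Finset.sum_image (fun x _ y _ h => ha h), ← hc]
  refine Finset.sum_congr rfl fun k _ => ?_
  rw [ha.extend_apply]
  rfl

end Pool.Agent.H57G
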