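import Pool.Agent.Lib.H57G.B1
import Pool.Agent.Lib.H57G.B7

/-!
# B8: the values of the basis elements
-/

set_option autoImplicit false

open H47E

namespace Pool.Agent.H57G

variable {n : ℕ} {K : Type} [Field K] (ι : K →+* ℂ) {L : PeriodPair} {e : ℂ} {a c : K}

/-- The monomial in the `x_j`, `w_j`. -/
theorem b8_mon {K : Type} [Field K] [Algebra K ℂ] {n : ℕ} (s : Fin n × Fin 2 → ℂ) (p q : Fin n → ℕ) (M : ℕ)
    (hp : ∀ j, p j ≤ M) (hq : ∀ j, q j ≤ M) :
    ∏ j, (s (j, 0) ^ p j * s (j, 1) ^ q j) ∈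
      (MvPolynomial.restrictDegree (Fin n × Fin 2) K M).map (MvPolynomial.aeval s).toLinearMap := by
  refine ⟨MvPolynomial.monomial (Finsupp.equivFunOnFinite.symm fun i : Fin n × Fin 2 => if i.2 = 0 then p i.1 else q i.1) 1,
    ?_, ?_⟩
  · rw [SetLike.mem_coe, MvPolynomial.mem_restrictDegree]
    intro m hm i
    have h1 := Finset.mem_singleton.1 (MvPolynomial.support_monomial_subset hm)
    rw [h1, Finsupp.equivFunOnFinite_symm_apply_apply]
    split_ifs
    · exact hp _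
    · exact hq _
  · rw [AlgHom.toLinearMap_apply, MvPolynomial.aeval_monomial, map_one, one_mul, Finsupp.prod_fintype _ _ (fun i => pow_zero _),
      Fintype.prod_prod_type]
    refine Finset.prod_congr rfl fun j _ => ?_
    rw [Fin.prod_univ_two, Finsupp.equivFunOnFinite_symm_apply_apply, Finsupp.equivFunOnFinite_symm_apply_apply, if_pos rfl,
      if_neg one_ne_zero]

/-- `ev_mon`: the value of `x^i yt^e w^k`, `i ≤ d`, `k ≤ κ`, is `∏ yt^e` times the value of a polynomial of degree at most `M` in `x_j`, `w_j`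
(there are `2^n` vectors `e`); `dim_values`, `pow_sub_le`, `spanDim_of`. -/
theorem spanDim_ev (N : Norm L e (ι a) (ι c)) (v : Fin n → ℂ) (hv : ∀ j, 2 * v j ∉ L.lattice)
    (Q : MvPolynomial (Fin n × Fin 2) K) (hQ : Q ≠ 0)
    (h0 : MvPolynomial.eval₂ ι (fun i : Fin n × Fin 2 => if i.2 = 0 then xf L e (v i.1) else wf L e (v i.1)) Q = 0)
    (δ : ℕ) (hδ : ∀ i, MvPolynomial.degreeOf i Q ≤ δ) (d κ M : ℕ) (hd : d ≤ M) (hκ : κ ≤ M) (hM : δ ≤ M) :
    SpanDim ι (fun b : {b // b ∈ IxG n d κ} => ev ι N v hv (mon a c K b.1))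
      (2 ^ n * (2 * n * δ * (M + 1) ^ (2 * n - 1))) := by
  let _ : Algebra K ℂ := ι.toAlgebra
  obtain ⟨s, hs⟩ : ∃ s : Fin n × Fin 2 → ℂ, s = fun i : Fin n × Fin 2 => if i.2 = 0 then xf L e (v i.1) else wf L e (v i.1) :=
    ⟨_, rfl⟩
  have hs0 : MvPolynomial.aeval s Q = 0 := by
    rw [MvPolynomial.aeval_def, hs]
    exact h0
  have hdim := dim_values s Q hQ hs0 δ M hδ hM
  have hb := pow_sub_le (2 * n) M δ hM
  have hcard : Fintype.card (Fin n × Fin 2) = 2 * n := by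
    rw [Fintype.card_prod, Fintype.card_fin, Fintype.card_fin, mul_comm]
  rw [hcard] at hdim
  obtain ⟨V, hV⟩ : ∃ V : Submodule K ℂ, V = (MvPolynomial.restrictDegree (Fin n × Fin 2) K M).map
    (MvPolynomial.aeval s).toLinearMap := ⟨_, rfl⟩
  have hVf : Module.Finite K V := by rw [hV]; infer_instance
  rw [← hV] at hdim
  have hVr : Module.finrank K V ≤ 2 * n * δ * (M + 1) ^ (2 * n - 1) := by omega
  obtain ⟨Y, hY⟩ : ∃ Y : (Fin n → Fin 2) → ℂ, ∀ ε, Y ε = ∏ j, yf L (v j) ^ ((ε j : Fin 2) : ℕ) := ⟨_, fun _ => rfl⟩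
  obtain ⟨Φ, hΦ⟩ : ∃ Φ : ((Fin n → Fin 2) → V) →ₗ[K] ℂ, ∀ u, Φ u = ∑ ε, Y ε * (u ε : ℂ) := by
    refine ⟨∑ ε, (LinearMap.mulLeft K (Y ε)).comp (V.subtype.comp (LinearMap.proj ε)), fun u => ?_⟩
    rw [LinearMap.sum_apply]
    rfl
  refine spanDim_of ι _ _ ?_
  show ∃ W : Submodule K ℂ, FiniteDimensional K W ∧ Module.finrank K W ≤ 2 ^ n * (2 * n * δ * (M + 1) ^ (2 * n - 1)) ∧
    ∀ b : {b // b ∈ IxG n d κ}, ev ι N v hv (mon a c K b.1) ∈ W
  refine ⟨LinearMap.range Φ, inferInstance, ?_, ?_⟩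
  · refine (LinearMap.finrank_range_le Φ).trans ?_
    rw [Module.finrank_pi_fintype, Finset.sum_const, Finset.card_univ, Fintype.card_fun, Fintype.card_fin, Fintype.card_fin,
      smul_eq_mul]
    exact Nat.mul_le_mul_left _ hVr
  · rintro ⟨I, hI⟩
    rw [mem_IxG] at hI
    have hk : ∀ j, (I j).2.2 ≤ M := fun j =>
      ((Finset.single_le_sum (f := fun j => (I j).2.2) (fun _ _ => Nat.zero_le _) (Finset.mem_univ j)).trans hI.1).trans hκ
    have hi : ∀ j, ((I j).1 - ((I j).2.1 : ℕ)).toNat ≤ M := fun j => by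
      have h1 := hI.2 j
      unfold tA wt at h1
      omega
    have hm := b8_mon (K := K) s (fun j => ((I j).1 - ((I j).2.1 : ℕ)).toNat) (fun j => (I j).2.2) M hi hk
    rw [← hV] at hm
    classical
    refine ⟨Pi.single (fun j => (I j).2.1) ⟨_, hm⟩, ?_⟩
    rw [hΦ, Finset.sum_eq_single (fun j => (I j).2.1)]
    · show _ = ev ι N v hv (mon a c K I)
      rw [Pi.single_eq_same, ev_mon ι N v hv I (fun j => (hI.2 j).1), hY, ← Finset.prod_mul_distrib]
      refine Finset.prod_congr rfl fun j _ => ?_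
      have e0 : s (j, 0) = xf L e (v j) := by rw [hs]; exact if_pos rfl
      have e1 : s (j, 1) = wf L e (v j) := by rw [hs]; exact if_neg one_ne_zero
      rw [e0, e1]
      ring
    · intro ε _ hε
      rw [Pi.single_eq_of_ne hε, ZeroMemClass.coe_zero, mul_zero]
    · intro h
      exact absurd (Finset.mem_univ _) h

end Pool.Agent.H57G
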