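import Pool.Agent.Lib.H57G.Defs
import Pool.Agent.Lib.H47E.E1j

/-!
# B9: numbers
-/

set_option autoImplicit false

open H47E

namespace Pool.Agent.H57G

/-- The indices used for the lower bound. -/
def b9_g (q : ℕ × ℕ) : Ix := ((q.1 : ℤ), 0, q.2)

theorem b9_g_inj : Function.Injective b9_g := by
  rintro ⟨a, b⟩ ⟨a', b'⟩ h
  unfold b9_g at h
  simp only [Prod.mk.injEq, Nat.cast_inj, true_and] at h
  rw [h.1, h.2]

/-- `i_j = e_j + l`, `l ≤ D`, `e_j = 0`, `k_j ≤ D`: weight `2 l + k ≤ 3 D`, at least `(D + 1)^(2 n)` indices. -/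
theorem card_lam (n D : ℕ) : (D + 1) ^ (2 * n) ≤ (IxG n (3 * D + 1) (n * D)).card := by
  have h : (Fintype.piFinset fun _ : Fin n => (Finset.range (D + 1) ×ˢ Finset.range (D + 1)).image b9_g) ⊆ IxG n (3 * D + 1) (n * D) := by
    intro I hI
    rw [Fintype.mem_piFinset] at hI
    rw [mem_IxG]
    have h1 : ∀ j, (I j).2.2 ≤ D ∧ tA (I j) ∧ wt (I j) ≤ (3 * D + 1 : ℕ) := by
      intro j
      obtain ⟨q, hq, hq2⟩ := Finset.mem_image.1 (hI j)
      rw [Finset.mem_product, Finset.mem_range, Finset.mem_range] at hq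
      rw [← hq2]
      unfold b9_g tA wt
      simp only [Fin.val_zero]
      refine ⟨by omega, by push_cast; omega, by push_cast; omega⟩
    refine ⟨?_, fun j => (h1 j).2⟩
    unfold wd
    calc ∑ j, (I j).2.2 ≤ ∑ _j : Fin n, D := Finset.sum_le_sum fun j _ => (h1 j).1
      _ = n * D := by rw [Finset.sum_const, Finset.card_univ, Fintype.card_fin, smul_eq_mul]
  have h2 := Finset.card_le_card h
  rw [Fintype.card_piFinset, Finset.prod_const, Finset.card_univ, Fintype.card_fin, Finset.card_image_of_injective _ b9_g_inj,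
    Finset.card_product, Finset.card_range, ← pow_two, ← pow_mul] at h2
  exact h2

/-- The number of points. -/
def m0f (Cz : ℕ → ℕ) (n r : ℕ) : ℕ := 64 * r * (Cz n * (n + 3) ^ (2 * n)) + 1

/-- Choice of `D`: with `v0 = 3 D + 1`, `k0 = n D`, all the numerical conditions of `aat` hold. `M = Cz n (v0 + k0 + 1) + δ`. -/
theorem choice (Cz : ℕ → ℕ) (n r δ : ℕ) (hn : 1 ≤ n) (hr : 1 ≤ r) : ∃ D : ℕ,
    (∀ Nt : ℕ, Nt ≤ Cz n * ((3 * D + 1) + n * D + 1) ^ (2 * n) →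
      64 * r * Nt ≤ m0f Cz n r * (IxG n (3 * D + 1) (n * D)).card) ∧
    10000 * r ^ 2 * (2 ^ n * (2 * n * δ * ((Cz n * ((3 * D + 1) + n * D + 1) + δ) + 1) ^ (2 * n - 1)) + 1) ≤
      (IxG n (3 * D + 1) (n * D)).card := by
  set A : ℕ := Cz n * (n + 3) + δ + 1 with hA
  set E : ℕ := 10000 * r ^ 2 * (2 ^ n * (2 * n * δ * A ^ (2 * n - 1)) + 1) with hE
  refine ⟨E, ?_, ?_⟩
  · intro Nt hNt
    have h1 := card_lam n E
    have h2 : (3 * E + 1) + n * E + 1 ≤ (n + 3) * (E + 1) := by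
      have : (n + 3) * (E + 1) = n * E + n + 3 * E + 3 := by ring
      omega
    have h3 : Nt ≤ Cz n * ((n + 3) ^ (2 * n) * (E + 1) ^ (2 * n)) := by
      rw [← mul_pow]
      exact hNt.trans (Nat.mul_le_mul_left _ (Nat.pow_le_pow_left h2 _))
    calc 64 * r * Nt ≤ 64 * r * (Cz n * ((n + 3) ^ (2 * n) * (E + 1) ^ (2 * n))) := Nat.mul_le_mul_left _ h3
      _ = 64 * r * (Cz n * (n + 3) ^ (2 * n)) * (E + 1) ^ (2 * n) := by ring
      _ ≤ m0f Cz n r * (E + 1) ^ (2 * n) := Nat.mul_le_mul_right _ (by unfold m0f; omega)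
      _ ≤ m0f Cz n r * (IxG n (3 * E + 1) (n * E)).card := Nat.mul_le_mul_left _ h1
  · have h1 := card_lam n E
    have h2 : (Cz n * ((3 * E + 1) + n * E + 1) + δ) + 1 ≤ A * (E + 1) := by
      have h3 : (3 * E + 1) + n * E + 1 ≤ (n + 3) * (E + 1) := by
        have : (n + 3) * (E + 1) = n * E + n + 3 * E + 3 := by ring
        omega
      have h4 : Cz n * ((3 * E + 1) + n * E + 1) ≤ Cz n * ((n + 3) * (E + 1)) := Nat.mul_le_mul_left _ h3
      have h5 : A * (E + 1) = Cz n * ((n + 3) * (E + 1)) + (δ + 1) * E + (δ + 1) := by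
        rw [hA]
        ring
      have h6 : 0 ≤ (δ + 1) * E := Nat.zero_le _
      omega
    have h7 : 1 ≤ (E + 1) ^ (2 * n - 1) := Nat.one_le_pow _ _ (Nat.succ_pos _)
    have h8 : ((Cz n * ((3 * E + 1) + n * E + 1) + δ) + 1) ^ (2 * n - 1) ≤ A ^ (2 * n - 1) * (E + 1) ^ (2 * n - 1) := by
      rw [← mul_pow]
      exact Nat.pow_le_pow_left h2 _
    calc 10000 * r ^ 2 * (2 ^ n * (2 * n * δ * ((Cz n * ((3 * E + 1) + n * E + 1) + δ) + 1) ^ (2 * n - 1)) + 1)
        ≤ 10000 * r ^ 2 * (2 ^ n * (2 * n * δ * (A ^ (2 * n - 1) * (E + 1) ^ (2 * n - 1))) + (E + 1) ^ (2 * n - 1)) :=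
          Nat.mul_le_mul_left _ (Nat.add_le_add (Nat.mul_le_mul_left _ (Nat.mul_le_mul_left _ h8)) h7)
      _ = E * (E + 1) ^ (2 * n - 1) := by
          rw [hE]
          ring
      _ ≤ (E + 1) * (E + 1) ^ (2 * n - 1) := Nat.mul_le_mul_right _ (Nat.le_succ _)
      _ = (E + 1) ^ (2 * n) := by
          rw [← pow_succ']
          congr 1
          omega
      _ ≤ _ := h1

end Pool.Agent.H57G
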