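import Pool.Agent.Lib.H57G.B1
import Pool.Agent.Lib.H47E.E6c

/-!
# C1: sums of coordinates times values
-/

set_option autoImplicit false

open PowerSeries H47E

namespace Pool.Agent.H57G

variable {n : ℕ} {K : Type} [Field K] [CharZero K] (ι : K →+* ℂ) {L : PeriodPair} {e : ℂ} {a c : K} [Fact (c ≠ 0)]

omit [CharZero K] [Fact (c ≠ 0)] in
/-- The values of the constants. -/
theorem c1_alg (N : Norm L e (ι a) (ι c)) (v : Fin n → ℂ) (hv : ∀ j, 2 * v j ∉ L.lattice) (r : K) :
    ev ι N v hv (algebraMap K (LL n a c K) r) = ι r := by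
  have h : (algebraMap K (LL n a c K) r) = Ideal.Quotient.mk (relI n a c K) (MvPolynomial.C r) := rfl
  rw [h]
  unfold ev llift
  rw [Ideal.Quotient.lift_mk, MvPolynomial.eval₂Hom_C]

/-- `e1h_sum` for every coefficient, `ev` is a ring homomorphism with `ev (r • m) = ι r * ev m`. -/
theorem link_sum (N : Norm L e (ι a) (ι c)) (v : Fin n → ℂ) (hv : ∀ j, 2 * v j ∉ L.lattice) (F : (LL n a c K)⟦X⟧)
    (s : Finset (Fin n → Ix)) (hs : ∀ i I, crd a c (coeff i F) I ≠ 0 → I ∈ s) :
    ∑ b : {b // b ∈ s}, C (ev ι N v hv (mon a c K b.1)) * PowerSeries.map ι (scrd a c F b.1) =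
      PowerSeries.map (ev ι N v hv) F := by
  classical
  ext i
  have h1 := e1h_sum a c (coeff i F) s (hs i)
  rw [map_sum, coeff_map]
  have h2 : ev ι N v hv (coeff i F) = ∑ I ∈ s, ev ι N v hv (mon a c K I) * ι (crd a c (coeff i F) I) := by
    conv_lhs => rw [h1]
    rw [map_sum]
    refine Finset.sum_congr rfl fun I _ => ?_
    have h3 : crd a c (coeff i F) I • mon a c K I = algebraMap K (LL n a c K) (crd a c (coeff i F) I) * mon a c K I := Algebra.smul_def (crd a c (coeff i F) I) (mon a c K I)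
    rw [h3, map_mul, c1_alg, mul_comm]
  rw [h2, ← Finset.sum_coe_sort s (fun I => ev ι N v hv (mon a c K I) * ι (crd a c (coeff i F) I))]
  refine Finset.sum_congr rfl fun b _ => ?_
  rw [coeff_C_mul, coeff_map, scrd, coeff_mk]

end Pool.Agent.H57G
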