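import Pool.Agent.Lib.H57G.B1
import Pool.Agent.Lib.H57G.B4
import Pool.Agent.Lib.H57G.B5
import Pool.Agent.Lib.H47E.E7
import Pool.Agent.Lib.H47E.E6c

/-!
# C2: the factors of the link have a positive radius of convergence
-/

set_option autoImplicit false

open PowerSeries H47E

namespace Pool.Agent.H57G

variable {n : ℕ} {K : Type} [Field K] [CharZero K] (ι : K →+* ℂ) {L : PeriodPair} {e : ℂ} {a c : K}

/-! ### auxiliary -/

theorem c2_sub {F G : ℂ⟦X⟧} (hF : Geo F) (hG : Geo G) : Geo (F - G) := by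
  rw [sub_eq_add_neg]
  exact geo_add hF (geo_neg hG)

theorem c2_one : Geo (1 : ℂ⟦X⟧) := by
  have h := geo_C 1
  rwa [map_one] at h

theorem c2_two : Geo (2 : ℂ⟦X⟧) := by
  have h := geo_add c2_one c2_one
  rwa [one_add_one_eq_two] at h

theorem c2_pow {F : ℂ⟦X⟧} (hF : Geo F) (q : ℕ) : Geo (F ^ q) := by
  induction q with
  | zero =>
    rw [pow_zero]
    exact c2_one
  | succ q ih =>
    rw [pow_succ]
    exact geo_mul ih hF

theorem c2_prod {β : Type} (s : Finset β) (F : β → ℂ⟦X⟧) (hF : ∀ j ∈ s, Geo (F j)) : Geo (∏ j ∈ s, F j) := by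
  classical
  induction s using Finset.induction_on with
  | empty =>
    rw [Finset.prod_empty]
    exact c2_one
  | insert b s hb ih =>
    rw [Finset.prod_insert hb]
    exact geo_mul (hF b (Finset.mem_insert_self b s)) (ih fun j hj => hF j (Finset.mem_insert_of_mem hj))

theorem c2_pN {a c t v x : ℂ⟦X⟧} (ha : Geo a) (hc : Geo c) (ht : Geo t) (hv : Geo v) (hx : Geo x) : Geo (pN a c t v x) := by
  unfold pN
  exact c2_sub (c2_sub (c2_sub c2_one (geo_mul ha (c2_pow ht 2))) (geo_mul (geo_mul hc (c2_pow ht 2)) hv))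
    (geo_mul (c2_pow ht 2) hx)

theorem c2_pX {a c t v x y : ℂ⟦X⟧} (ha : Geo a) (hc : Geo c) (ht : Geo t) (hv : Geo v) (hx : Geo x) (hy : Geo y) :
    Geo (pX a c t v x y) := by
  have hxi : Geo (1 - a * t ^ 2 - c * t ^ 2 * v) :=
    c2_sub (c2_sub c2_one (geo_mul ha (c2_pow ht 2))) (geo_mul (geo_mul hc (c2_pow ht 2)) hv)
  unfold pX
  exact geo_add (geo_add (geo_mul (geo_mul hx hxi)
    (geo_add (geo_add (geo_mul (c2_pow ht 2) hx) hxi) (geo_mul (geo_mul c2_two ha) (c2_pow ht 2))))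
    (geo_mul (geo_mul hc (c2_pow ht 2)) (geo_add (geo_mul (c2_pow ht 2) hx) hxi)))
    (geo_mul (geo_mul (geo_mul c2_two ht) hxi) hy)

theorem c2_kap {a₀ c₀ : K} {n₀ : ℕ} (ψ : LL n₀ a₀ c₀ K →+* ℂ) (hψ : ∀ r, ψ (algebraMap K (LL n₀ a₀ c₀ K) r) = ι r) (F : K⟦X⟧) :
    PowerSeries.map ψ (kap K F) = PowerSeries.map ι F := by
  ext i
  change coeff i (PowerSeries.map ψ (PowerSeries.map (algebraMap K (LL n₀ a₀ c₀ K)) F)) = coeff i (PowerSeries.map ι F)
  rw [coeff_map, coeff_map, coeff_map, hψ]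

theorem c2_t1 (S : Ser K a c) : coeff 1 S.t = 1 := by
  have h := congrArg (coeff 0) S.ht
  rw [coeff_derivative] at h
  simpa [S.t0] using h

theorem c2_U1 (S : Ser K a c) : coeff 1 S.U = 1 := by
  unfold Ser.U
  rw [coeff_mul, Finset.Nat.antidiagonal_succ, Finset.sum_cons, Finset.Nat.antidiagonal_zero]
  simp [c2_t1 S, S.t0, S.rho0]

/-- The image of `N_j`, `X1_j` under any ring homomorphism `ψ : LL n a c K → ℂ` over `ι` (coefficientwise): a polynomial in constants and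
`sc (ι (p j)) t`, `v` of `S.map ι` (`map_ser`, `geo_ser`, `geo_sc`). -/
theorem geo_gen (S : Ser K a c) (p : Fin n → K) (ψ : LL n a c K →+* ℂ) (hψ : ∀ r, ψ (algebraMap K (LL n a c K) r) = ι r)
    (j : Fin n) : Geo (PowerSeries.map ψ (Nj S K p j)) ∧ Geo (PowerSeries.map ψ (Xj S K p j)) := by
  obtain ⟨-, ht, hv, -, -⟩ := geo_ser (S.map ι)
  have m := map_ser S ι (p j)
  have gt : Geo (PowerSeries.map ψ (kap K (sc (p j) S.t))) := by
    rw [c2_kap ι ψ hψ, m.2.2.2.2.1]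
    exact geo_sc ht _
  have gv' : Geo (PowerSeries.map ψ (kap K (sc (p j) S.v))) := by
    rw [c2_kap ι ψ hψ, m.2.2.2.2.2.1]
    exact geo_sc hv _
  have gk : ∀ r : K, Geo (PowerSeries.map ψ (kap K (C r))) := by
    intro r
    rw [c2_kap ι ψ hψ, PowerSeries.map_C]
    exact geo_C _
  have gc : ∀ r : LL n a c K, Geo (PowerSeries.map ψ (C r)) := by
    intro r
    rw [PowerSeries.map_C]
    exact geo_C _
  constructor
  · unfold Nj
    rw [e7_map_pN]
    exact c2_pN (gk _) (gk _) gt gv' (gc _)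
  · unfold Xj
    rw [e7_map_pX]
    exact c2_pX (gk _) (gk _) gt gv' (gc _) (gc _)

/-- `thI` is a product of powers of `C x`, `tau N`, `tau X1`, `N`; `ψ ∘ tau` is a homomorphism over `ι` (`e2a_alg`). -/
theorem geo_th (S : Ser K a c) (p : Fin n → K) (ψ : LL n a c K →+* ℂ) (hψ : ∀ r, ψ (algebraMap K (LL n a c K) r) = ι r)
    (v0 k0 : ℕ) (I : Finset (Fin n)) : Geo (PowerSeries.map ψ (thI S p K v0 k0 I)) := by
  classical
  have gc : ∀ r : LL n a c K, Geo (PowerSeries.map ψ (C r)) := by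
    intro r
    rw [PowerSeries.map_C]
    exact geo_C _
  have hτ : ∀ r, (ψ.comp (tau a c K I)) (algebraMap K (LL n a c K) r) = ι r := by
    intro r
    rw [RingHom.comp_apply, e2a_alg, hψ]
  have hcomp : ∀ F : (LL n a c K)⟦X⟧, PowerSeries.map ψ (PowerSeries.map (tau a c K I) F) = PowerSeries.map (ψ.comp (tau a c K I)) F := by
    intro F
    ext i
    rw [coeff_map, coeff_map, coeff_map, RingHom.comp_apply]
  unfold thI
  rw [map_prod]
  refine c2_prod _ _ fun j _ => ?_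
  by_cases hj : j ∈ I
  · simp only [if_pos hj]
    simp only [map_mul, map_pow, hcomp]
    obtain ⟨h1, h2⟩ := geo_gen ι S p (ψ.comp (tau a c K I)) hτ j
    exact geo_mul (geo_mul (c2_pow (gc _) _) (c2_pow h1 _)) (c2_pow h2 _)
  · simp only [if_neg hj]
    rw [map_pow]
    exact c2_pow (geo_gen ι S p ψ hψ j).1 _

theorem geo_Xi (S : Ser K a c) (p : Fin n → K) (v0 k0 : ℕ) : Geo (PowerSeries.map ι (Xi S p v0 k0)) := by
  obtain ⟨hr, ht, -, -, -⟩ := geo_ser (S.map ι)
  have hU : Geo (S.map ι).U := by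
    unfold Ser.U
    exact geo_mul hr ht
  unfold Xi
  rw [map_prod]
  refine c2_prod _ _ fun j _ => ?_
  have m := map_ser S ι (p j)
  rw [map_mul, map_pow, map_pow, m.1, m.2.2.2.2.2.2.2]
  exact geo_mul (c2_pow (geo_sc hU _) _) (c2_pow (geo_sc hr _) _)

theorem Xi_ne (S : Ser K a c) (p : Fin n → K) (hp : ∀ j, p j ≠ 0) (v0 k0 : ℕ) : Xi S p v0 k0 ≠ 0 := by
  unfold Xi
  refine Finset.prod_ne_zero_iff.mpr fun j _ => mul_ne_zero (pow_ne_zero _ fun h => ?_) (pow_ne_zero _ fun h => ?_)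
  · have h1 := congrArg (coeff 1) h
    unfold sc at h1
    rw [coeff_mk, c2_U1, map_zero] at h1
    simp at h1
    exact hp j h1
  · have h1 := congrArg (coeff 0) h
    unfold sc at h1
    rw [coeff_mk, map_zero] at h1
    simp [S.rho0] at h1

end Pool.Agent.H57G
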