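import Pool.Agent.Lib.H57G.B2
import Pool.Agent.Lib.H57G.B3
import Pool.Agent.Lib.H57G.B6
import Pool.Agent.Lib.H57G.C1
import Pool.Agent.Lib.H57G.C2

/-!
# C3: the link with the values
-/

set_option autoImplicit false

open PowerSeries H47E

namespace Pool.Agent.H57G

variable {n : ℕ} {K : Type} [Field K] [CharZero K] (ι : K →+* ℂ) {L : PeriodPair} {e : ℂ} {a c : K} [Fact (c ≠ 0)]

section Aux

variable {n₁ : ℕ} {K₁ : Type} [Field K₁] {a₁ c₁ : K₁}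

theorem c3_psA_mem (S : Ser K₁ a₁ c₁) (p : Fin n₁ → K₁) (v0 : ℕ) (l : Fin n₁ → Ix) : psA S p v0 l ∈ agR K₁ := by
  unfold psA
  refine Subring.prod_mem _ fun j _ => ?_
  obtain ⟨h1, h2, h3, h4, -⟩ := agR_gen S (p j)
  have h : sc (p j) (S.U ^ (v0 - (wt (l j)).toNat) * S.X ^ ((l j).1 - ((l j).2.1 : ℕ)).toNat * S.Y ^ ((l j).2.1 : ℕ) *
      S.Z ^ (l j).2.2) = sc (p j) S.U ^ (v0 - (wt (l j)).toNat) * sc (p j) S.X ^ ((l j).1 - ((l j).2.1 : ℕ)).toNat *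
        sc (p j) S.Y ^ ((l j).2.1 : ℕ) * sc (p j) S.Z ^ (l j).2.2 := by
    simp only [sc_eq, map_mul, map_pow]
  rw [h]
  exact mul_mem (mul_mem (mul_mem (pow_mem h1 _) (pow_mem h2 _)) (pow_mem h3 _)) (pow_mem h4 _)

theorem c3_uu_mem (S : Ser K₁ a₁ c₁) (p : Fin n₁ → K₁) (v0 : ℕ) : uu S p v0 ∈ agR K₁ := by
  unfold uu
  refine Subring.prod_mem _ fun j _ => ?_
  obtain ⟨h1, -⟩ := agR_gen S (p j)
  have h : sc (p j) (S.U ^ v0) = sc (p j) S.U ^ v0 := by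
    simp only [sc_eq, map_pow]
  rw [h]
  exact pow_mem h1 _

theorem c3_an {F : ℂ⟦X⟧} (hF : AG F) (z : ℂ) : AnalyticAt ℂ (val F) z := (val_differentiable hF).analyticAt z

theorem c3_alg (ι₁ : K₁ →+* ℂ) {L₁ : PeriodPair} {e₁ : ℂ} (N : Norm L₁ e₁ (ι₁ a₁) (ι₁ c₁)) (v : Fin n₁ → ℂ)
    (hv : ∀ j, 2 * v j ∉ L₁.lattice) (r : K₁) : ev ι₁ N v hv (algebraMap K₁ (LL n₁ a₁ c₁ K₁) r) = ι₁ r := by
  have h : ev ι₁ N v hv (Ideal.Quotient.mk _ (MvPolynomial.C r)) = ι₁ r := by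
    unfold ev llift
    rw [Ideal.Quotient.lift_mk, MvPolynomial.eval₂Hom_C]
  exact h

end Aux

/-- The Taylor series of `Psi^a` at `m` (`taylor_eq_TS`, `psA_val` near `m` (`om_open`), `TS_congr`, `TS_mul`, `TS_Fz`; `psA`, `uu` are in `agR`). -/
theorem taylor_psA (N : Norm L e (ι a) (ι c)) (S : Ser K a c) (p : Fin n → K) (v0 : ℕ) (l : Fin n → Ix)
    (hl : ∀ j, tA (l j) ∧ wt (l j) ≤ v0) (m : ℂ) (hm : ∀ j, 2 * (ι (p j) * m) ∉ L.lattice) :
    taylor m (PowerSeries.map ι (psA S p v0 l)) = taylor m (PowerSeries.map ι (uu S p v0)) *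
      PowerSeries.map (ev ι N (fun j => ι (p j) * m) hm) (expD (der a c 0 p) (mon a c K l)) := by
  have h1 : AG (PowerSeries.map ι (psA S p v0 l)) := c3_psA_mem S p v0 l ι
  have h2 : AG (PowerSeries.map ι (uu S p v0)) := c3_uu_mem S p v0 ι
  have hm' : m ∈ Om ι L p := hm
  rw [taylor_eq_TS h1, taylor_eq_TS h2, ← TS_Fz ι N p (mon a c K l) m hm,
    ← TS_mul (c3_an h2 m) (Fz_analytic ι N p (mon a c K l) m hm')]
  refine TS_congr ?_
  filter_upwards [(om_open ι L p).mem_nhds hm'] with z hz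
  exact psA_val S p v0 ι N l hl z hz

/-- The inverse of the Taylor series of `∏ U(p_j z)^v0` (constant coefficient `≠ 0` by `uu_ne`; `TS_geo`, `geo_inv`). -/
theorem uu_inv (N : Norm L e (ι a) (ι c)) (S : Ser K a c) (p : Fin n → K) (v0 : ℕ) (m : ℂ)
    (hm : ∀ j, 2 * (ι (p j) * m) ∉ L.lattice) :
    ∃ V : ℂ⟦X⟧, Geo V ∧ V * taylor m (PowerSeries.map ι (uu S p v0)) = 1 := by
  have h2 : AG (PowerSeries.map ι (uu S p v0)) := c3_uu_mem S p v0 ι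
  have h0 : constantCoeff (taylor m (PowerSeries.map ι (uu S p v0))) ≠ 0 := by
    rw [taylor_eq_TS h2, TS_zero]
    exact uu_ne S p v0 ι N m hm
  have h3 : Geo (taylor m (PowerSeries.map ι (uu S p v0))) := by
    rw [taylor_eq_TS h2]
    exact TS_geo (c3_an h2 m)
  refine ⟨(taylor m (PowerSeries.map ι (uu S p v0)))⁻¹, geo_inv h3 (PowerSeries.mul_inv_cancel _ h0),
    PowerSeries.inv_mul_cancel _ h0⟩

/-- THE LINK. `Th = map ι Xi * C (ev (mon μ)) * map ev (thI) * V` (`e7_formula`, `taylor_psA`, `uu_inv`, `link_sum`, `geo_th`, `geo_Xi`). The coordinates of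
`vv .. * C (mon μ)` have their indices in `s` by hypothesis. -/
theorem link_main (N : Norm L e (ι a) (ι c)) (S : Ser K a c) (p : Fin n → K) (v0 k0 : ℕ) (m : ℂ)
    (hm : ∀ j, 2 * (ι (p j) * m) ∉ L.lattice) (I : Finset (Fin n)) (μ : Fin n → Ix) (s : Finset (Fin n → Ix))
    (hs : ∀ l : Fin n → Ix, (∀ j, tA (l j) ∧ wt (l j) ≤ v0) → wd l ≤ k0 → ∀ i J,
      crd a c (coeff i (vv S p (0 : Derivation K K K) v0 k0 I (mon a c K l) * C (mon a c K μ))) J ≠ 0 → J ∈ s) :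
    ∃ Th : ℂ⟦X⟧, (∃ B : ℝ, ∀ i, ‖coeff i Th‖ ≤ B ^ (i + 1)) ∧
      ∀ l : Fin n → Ix, (∀ j, tA (l j) ∧ wt (l j) ≤ v0) → wd l ≤ k0 →
        ∑ b : {b // b ∈ s}, C (ev ι N (fun j => ι (p j) * m) hm (mon a c K b.1)) *
          PowerSeries.map ι (Xi S p v0 k0 *
            scrd a c (vv S p (0 : Derivation K K K) v0 k0 I (mon a c K l) * C (mon a c K μ)) b.1) =
        Th * taylor m (PowerSeries.map ι (psA S p v0 l)) := by
  obtain ⟨V, hV, hV1⟩ := uu_inv ι N S p v0 m hm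
  obtain ⟨ψ, hψ⟩ : ∃ ψ, ψ = ev ι N (fun j => ι (p j) * m) hm := ⟨_, rfl⟩
  have hψ1 : ∀ r, ψ (algebraMap K (LL n a c K) r) = ι r := by
    intro r
    rw [hψ]
    exact c3_alg ι N _ hm r
  refine ⟨PowerSeries.map ι (Xi S p v0 k0) * C (ψ (mon a c K μ)) * PowerSeries.map ψ (thI S p K v0 k0 I) * V,
    geo_mul (geo_mul (geo_mul (geo_Xi ι S p v0 k0) (geo_C _)) (geo_th ι S p ψ hψ1 v0 k0 I)) hV, ?_⟩
  intro l hl hl2
  rw [← hψ]
  have h1 := link_sum ι N (fun j => ι (p j) * m) hm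
    (vv S p (0 : Derivation K K K) v0 k0 I (mon a c K l) * C (mon a c K μ)) s (hs l hl hl2)
  have h2 := taylor_psA ι N S p v0 l hl m hm
  rw [← hψ] at h1 h2
  have h3 : ∑ b : {b // b ∈ s}, C (ψ (mon a c K b.1)) *
        PowerSeries.map ι (Xi S p v0 k0 *
          scrd a c (vv S p (0 : Derivation K K K) v0 k0 I (mon a c K l) * C (mon a c K μ)) b.1) =
      PowerSeries.map ι (Xi S p v0 k0) * PowerSeries.map ψ
        (vv S p (0 : Derivation K K K) v0 k0 I (mon a c K l) * C (mon a c K μ)) := by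
    rw [← h1, Finset.mul_sum]
    refine Finset.sum_congr rfl fun b _ => ?_
    rw [map_mul]
    ring
  rw [h3, e7_formula, map_mul, map_mul, PowerSeries.map_C, h2]
  linear_combination (-(PowerSeries.map ι (Xi S p v0 k0) * C (ψ (mon a c K μ)) * PowerSeries.map ψ (thI S p K v0 k0 I) *
    PowerSeries.map ψ (expD (der a c 0 p) (mon a c K l)))) * hV1

end Pool.Agent.H57G
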