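import Pool.Agent.Lib.H57G.B6

/-!
# C4a: the series psA, psP in subrings; small lemmas
-/

set_option autoImplicit false

open PowerSeries H47E

namespace Pool.Agent.H57G

theorem sc_mul {k : Type} [CommRing k] (p : k) (f g : k⟦X⟧) : sc p (f * g) = sc p f * sc p g := by
  rw [sc_eq, sc_eq, sc_eq, map_mul]

theorem sc_pow {k : Type} [CommRing k] (p : k) (f : k⟦X⟧) (m : ℕ) : sc p (f ^ m) = sc p f ^ m := by
  rw [sc_eq, sc_eq, map_pow]

theorem sc_one {k : Type} [CommRing k] (p : k) : sc p (1 : k⟦X⟧) = 1 := by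
  rw [sc_eq, map_one]

theorem sc_add {k : Type} [CommRing k] (p : k) (f g : k⟦X⟧) : sc p (f + g) = sc p f + sc p g := by
  rw [sc_eq, sc_eq, sc_eq, map_add]

theorem sc_sub {k : Type} [CommRing k] (p : k) (f g : k⟦X⟧) : sc p (f - g) = sc p f - sc p g := by
  rw [sc_eq, sc_eq, sc_eq, map_sub]

theorem sc_neg {k : Type} [CommRing k] (p : k) (f : k⟦X⟧) : sc p (-f) = -sc p f := by
  rw [sc_eq, sc_eq, map_neg]

theorem sc_C {k : Type} [CommRing k] (p x : k) : sc p (C x) = C x := by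
  ext i
  unfold sc
  rw [coeff_mk, coeff_C]
  split_ifs with h
  · rw [h, pow_zero, one_mul]
  · rw [mul_zero]

variable {n : ℕ} {K : Type} [Field K] {a c : K} (S : Ser K a c) (p : Fin n → K) (v0 : ℕ) (R : Subring K⟦X⟧)

theorem psA_mem (h : ∀ j, sc (p j) S.U ∈ R ∧ sc (p j) S.X ∈ R ∧ sc (p j) S.Y ∈ R ∧ sc (p j) S.Z ∈ R) (I : Fin n → Ix) :
    psA S p v0 I ∈ R := by
  refine Subring.prod_mem _ fun j _ => ?_
  obtain ⟨h1, h2, h3, h4⟩ := h j
  rw [sc_mul, sc_mul, sc_mul, sc_pow, sc_pow, sc_pow, sc_pow]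
  exact mul_mem (mul_mem (mul_mem (pow_mem h1 _) (pow_mem h2 _)) (pow_mem h3 _)) (pow_mem h4 _)

theorem uu_mem (h : ∀ j, sc (p j) S.U ∈ R) : uu S p v0 ∈ R := by
  refine Subring.prod_mem _ fun j _ => ?_
  rw [sc_pow]
  exact pow_mem (h j) _

theorem psP_mem (ha : C a ∈ R) (hc : C c ∈ R) (h : ∀ j, sc (p j) S.t ∈ R ∧ sc (p j) S.v ∈ R ∧ sc (p j) S.g ∈ R)
    (I : Fin n → Ix) : psP S p v0 I ∈ R := by
  refine Subring.prod_mem _ fun j _ => ?_
  obtain ⟨h1, h2, h3⟩ := h j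
  have hxi : sc (p j) S.xi ∈ R := by
    unfold Ser.xi
    rw [sc_sub, sc_sub, sc_one, sc_mul, sc_mul, sc_mul, sc_C, sc_C, sc_pow]
    exact sub_mem (sub_mem (one_mem _) (mul_mem ha (pow_mem h1 _))) (mul_mem (mul_mem hc (pow_mem h1 _)) h2)
  rw [sc_mul, sc_mul, sc_mul, sc_pow, sc_pow, sc_pow, sc_pow, sc_neg, sc_add, sc_one, sc_mul]
  exact mul_mem (mul_mem (mul_mem (pow_mem h1 _) (pow_mem hxi _)) (pow_mem (neg_mem hxi) _))
    (pow_mem (add_mem (one_mem _) (mul_mem h1 h3)) _)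

/-- Common integral multiples. -/
theorem exists_mult {K : Type} [Field K] [NumberField K] {n : ℕ} (p : Fin n → K) :
    ∃ M : ℕ, 0 < M ∧ ∀ j, IsIntegral ℤ ((M : K) * p j) := by
  classical
  have h : ∀ j, ∃ M : ℕ, 0 < M ∧ IsIntegral ℤ ((M : K) * p j) := by
    intro j
    have halg : IsAlgebraic ℤ (p j) := (IsFractionRing.isAlgebraic_iff ℤ ℚ K).2 (Algebra.IsAlgebraic.isAlgebraic (p j))
    obtain ⟨y, hy, hy2⟩ := halg.exists_integral_multiple
    refine ⟨y.natAbs, Int.natAbs_pos.2 hy, ?_⟩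
    rw [zsmul_eq_mul] at hy2
    rcases Int.natAbs_eq y with h | h
    · have e : ((y.natAbs : ℕ) : K) = (y : K) := by
        have := congrArg (Int.cast : ℤ → K) h.symm
        rwa [Int.cast_natCast] at this
      rwa [e]
    · have e : ((y.natAbs : ℕ) : K) = -(y : K) := by
        have := congrArg (Int.cast : ℤ → K) h
        rw [Int.cast_neg, Int.cast_natCast] at this
        rw [this, neg_neg]
      rw [e, neg_mul]
      exact hy2.neg
  choose M hM hi using h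
  refine ⟨∏ j, M j, Finset.prod_pos fun j _ => hM j, fun j => ?_⟩
  have e : ((∏ j, M j : ℕ) : K) * p j = ((∏ l ∈ Finset.univ.erase j, M l : ℕ) : K) * ((M j : K) * p j) := by
    rw [← Finset.prod_erase_mul Finset.univ M (Finset.mem_univ j)]
    push_cast
    ring
  rw [e]
  refine IsIntegral.mul ?_ (hi j)
  have := isIntegral_algebraMap (R := ℤ) (A := K) (x := ((∏ l ∈ Finset.univ.erase j, M l : ℕ) : ℤ))
  simpa using this

end Pool.Agent.H57G
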