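import Pool.Agent.Lib.H57G.B8
import Pool.Agent.Lib.H57G.B9
import Pool.Agent.Lib.H57G.C3
import Pool.Agent.Lib.H57G.C4a
import Pool.Agent.Lib.H47E.Z7
import Pool.Agent.Lib.H47E.E6b
import Pool.Agent.Lib.H47E.E6c
import Pool.Agent.Lib.H16LW.R0
import Pool.Agent.Lib.H47E.D

/-!
# C4: the core theorem for integral coefficients
-/

set_option autoImplicit false

open PowerSeries H47E NumberField

namespace Pool.Agent.H57G

/-- The case without points. -/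
theorem coreI_zero {K : Type} [Field K] (ι : K →+* ℂ) (f : Fin 0 × Fin 2 → ℂ) (Q : MvPolynomial (Fin 0 × Fin 2) K)
    (hQ : Q ≠ 0) : MvPolynomial.eval₂ ι f Q ≠ 0 := by
  have h : Q = MvPolynomial.C (MvPolynomial.coeff 0 Q) := by
    exact MvPolynomial.eq_C_of_isEmpty Q
  rw [h, MvPolynomial.eval₂_C]
  intro h0
  apply hQ
  rw [h, (map_eq_zero ι).1 h0, map_zero]

section Core

variable {n : ℕ} {K : Type} [Field K] [NumberField K] (ι : K →+* ℂ) {L : PeriodPair} {e : ℂ} {a c : K} [Fact (c ≠ 0)]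

open Classical in
/-- The values. -/
noncomputable def tht (N : Norm L e (ι a) (ι c)) (p : Fin n → K) (s : Finset (Fin n → Ix)) (m : ℕ) (b : {b // b ∈ s}) : ℂ :=
  if h : ∀ j, 2 * (ι (p j) * (m : ℂ)) ∉ L.lattice then ev ι N (fun j => ι (p j) * (m : ℂ)) h (mon a c K b.1) else 1

theorem tht_eq (N : Norm L e (ι a) (ι c)) (p : Fin n → K) (s : Finset (Fin n → Ix)) (m : ℕ)
    (h : ∀ j, 2 * (ι (p j) * (m : ℂ)) ∉ L.lattice) :
    tht ι N p s m = fun b => ev ι N (fun j => ι (p j) * (m : ℂ)) h (mon a c K b.1) := by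
  funext b
  unfold tht
  rw [dif_pos h]

theorem tht_one (N : Norm L e (ι a) (ι c)) (p : Fin n → K) (s : Finset (Fin n → Ix)) (m : ℕ)
    (hs : (fun _ : Fin n => ((0, 0, 0) : Ix)) ∈ s) : tht ι N p s m ⟨_, hs⟩ = 1 := by
  unfold tht
  split_ifs with h
  · rw [(e1h_one a c (k := K) (n := n)).2.2, map_one]
  · rfl

/-- The supports of the coefficients. -/
theorem supp_vv (S : Ser K a c) (p : Fin n → K) (v0 k0 d κ : ℕ) (I : Finset (Fin n)) (μ : Fin n → Ix)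
    (hμ : μ ∈ IxG n d κ) (l : Fin n → Ix) (hl : ∀ j, tA (l j) ∧ wt (l j) ≤ v0) (hl' : wd l ≤ k0) (i : ℕ) (J : Fin n → Ix)
    (h : crd a c (coeff i (vv S p (0 : Derivation K K K) v0 k0 I (mon a c K l) * C (mon a c K μ))) J ≠ 0) :
    J ∈ IxG n (d + bb v0 k0) (κ + k0) := by
  rw [coeff_mul_C] at h
  have h1 := e5b_vv S p (0 : Derivation K K K) (e1i_mon a c (k := K) (d := v0) (κ := k0) l ⟨hl', hl⟩) I i
  have h2 := e1i_mon a c (k := K) (d := d) (κ := κ) μ ((mem_IxG μ).1 hμ)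
  have h3 := e1i_TG_mul a c h1 h2
  obtain ⟨h4, h5⟩ := h3 J h
  rw [mem_IxG]
  refine ⟨by omega, fun j => ⟨(h5 j).1, ?_⟩⟩
  have := (h5 j).2
  push_cast at this ⊢
  omega

end Core

/-- THE CORE THEOREM. -/
theorem coreI : H16LW.CoreI := by
  classical
  intro n K _ _ ι
  rcases Nat.eq_zero_or_pos n with rfl | hn
  · exact ⟨0, fun L _ e a c _ _ p _ _ Q hQ => coreI_zero ι _ Q hQ⟩
  obtain ⟨B, hB⟩ := z5_num n
  have hr : 1 ≤ Module.finrank ℚ K := Module.finrank_pos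
  refine ⟨m0f (fun _ => B) n (Module.finrank ℚ K), fun L hL e a c N D p hp hm Q hQ hQ0 => ?_⟩
  set m0 := m0f (fun _ => B) n (Module.finrank ℚ K) with hm0def
  have hm0 : 1 ≤ m0 := by
    rw [hm0def]
    unfold m0f
    omega
  have hdisc := norm_disc N
  have hc : (c : K) ≠ 0 := fun h => hdisc.1 (by rw [h, map_zero])
  haveI : Fact ((c : K) ≠ 0) := ⟨hc⟩
  obtain ⟨S⟩ := ser_exists K (a : K) (c : K)
  -- the points
  have hmm : ∀ m : ℕ, 1 ≤ m → m ≤ m0 → ∀ j, 2 * (ι (p j) * (m : ℂ)) ∉ L.lattice := by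
    intro m h1 h2 j h3
    exact hm j m h1 h2 (by
      have e1 : 2 * (m : ℂ) * ι (p j) = 2 * (ι (p j) * (m : ℂ)) := by ring
      rw [e1]
      exact h3)
  have hpne : ∀ j, p j ≠ 0 := by
    intro j h
    have := hmm 1 le_rfl hm0 j
    rw [h, map_zero, zero_mul, mul_zero] at this
    exact this (zero_mem _)
  -- the relations
  have hrel : ∀ m : ℕ, ∃ Q' : MvPolynomial (Fin n × Fin 2) K, (1 ≤ m → m ≤ m0 → Q' ≠ 0 ∧
      MvPolynomial.eval₂ ι (fun i : Fin n × Fin 2 => if i.2 = 0 then xf L e (ι (p i.1) * (m : ℂ)) else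
        wf L e (ι (p i.1) * (m : ℂ))) Q' = 0) := by
    intro m
    by_cases h : 1 ≤ m ∧ m ≤ m0
    · obtain ⟨Q', h1, h2⟩ := transfer ι N (fun j => ι (p j)) m0 (fun j m h1 h2 => hm j m h1 h2) Q hQ hQ0 m h.1 h.2
      refine ⟨Q', fun _ _ => ⟨h1, ?_⟩⟩
      rw [← h2]
      congr 1
      funext i
      rw [mul_comm (m : ℂ)]
    · exact ⟨0, fun h1 h2 => absurd ⟨h1, h2⟩ h⟩
  choose Q' hQ' using hrel
  obtain ⟨δ, hδ⟩ : ∃ δ : ℕ, ∀ m, m ≤ m0 → ∀ i, MvPolynomial.degreeOf i (Q' m) ≤ δ := by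
    refine ⟨∑ m ∈ Finset.range (m0 + 1), ∑ i, MvPolynomial.degreeOf i (Q' m), fun m hm' i => ?_⟩
    refine le_trans ?_ (Finset.single_le_sum (f := fun m => ∑ i, MvPolynomial.degreeOf i (Q' m))
      (fun _ _ => Nat.zero_le _) (Finset.mem_range.2 (Nat.lt_succ_of_le hm')))
    exact Finset.single_le_sum (f := fun i => MvPolynomial.degreeOf i (Q' m)) (fun _ _ => Nat.zero_le _) (Finset.mem_univ i)
  obtain ⟨D', hD1, hD2⟩ := choice (fun _ => B) n (Module.finrank ℚ K) δ hn hr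
  set v0 := 3 * D' + 1 with hv0
  set k0 := n * D' with hk0
  obtain ⟨hB1, hB2, hB3⟩ := hB v0 k0
  -- denominators
  obtain ⟨M0, hM0, hM0i⟩ := exists_mult p
  obtain ⟨M, hM, hMM, Q2, hHalf, ht, hv, hg⟩ := pd_main a c (fun h => hc (by rw [h]; rfl)) (fun h => hdisc.2 (by
    have h' : ((a : K)) ^ 2 = 4 * (c : K) := by
      have h2 := congrArg (fun x : 𝓞 K => (x : K)) h
      push_cast at h2
      exact h2
    rw [← map_pow, h', map_mul, map_ofNat])) D S M0 hM0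
  have hMi : ∀ j, IsIntegral ℤ ((M : K) ^ 1 * p j) := by
    intro j
    obtain ⟨q, hq⟩ := hMM
    rw [pow_one, hq]
    have e1 : ((M0 * q : ℕ) : K) * p j = (q : K) * ((M0 : K) * p j) := by push_cast; ring
    rw [e1]
    refine IsIntegral.mul ?_ (hM0i j)
    have := isIntegral_algebraMap (R := ℤ) (A := K) (x := (q : ℤ))
    simpa using this
  let RR : Subring K⟦X⟧ := pdR K M hM Q2 hHalf.1
  have hRa : C (a : K) ∈ RR := ⟨0, PD.const (j := 0) (by rw [pow_zero, one_mul]; exact a.isIntegral_coe)⟩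
  have hRc : C (c : K) ∈ RR := ⟨0, PD.const (j := 0) (by rw [pow_zero, one_mul]; exact c.isIntegral_coe)⟩
  have hRg : ∀ j, sc (p j) S.t ∈ RR ∧ sc (p j) S.v ∈ RR ∧ sc (p j) S.g ∈ RR := fun j =>
    ⟨⟨0, ht.sc (hMi j)⟩, ⟨0, hv.sc (hMi j)⟩, ⟨1, hg.sc (hMi j)⟩⟩
  have hAg : ∀ j, sc (p j) S.U ∈ agR K ∧ sc (p j) S.X ∈ agR K ∧ sc (p j) S.Y ∈ agR K ∧ sc (p j) S.Z ∈ agR K := fun j =>
    ⟨(agR_gen S (p j)).1, (agR_gen S (p j)).2.1, (agR_gen S (p j)).2.2.1, (agR_gen S (p j)).2.2.2.1⟩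
  have hAC : ∀ r : K, C r ∈ agR K := fun r => (agR_gen S r).2.2.2.2
  -- the index sets
  have hlam : ∀ l : {l : Fin n → Ix // l ∈ IxG n v0 k0}, (∀ j, tA (l.1 j) ∧ wt (l.1 j) ≤ v0) ∧ wd l.1 ≤ k0 := fun l =>
    ⟨((mem_IxG l.1).1 l.2).2, ((mem_IxG l.1).1 l.2).1⟩
  obtain ⟨d, hd, hden⟩ := pdR_dens K M hM Q2 hHalf
    (β := {l : Fin n → Ix // l ∈ IxG n v0 k0} ⊕
      ((Finset (Fin n) × {μ : Fin n → Ix // μ ∈ IxG n (zd n v0 k0) (zk n k0)}) × {l : Fin n → Ix // l ∈ IxG n v0 k0} ×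
        {b : Fin n → Ix // b ∈ IxG n (zd n v0 k0 + bb v0 k0) (zk n k0 + k0)}))
    (Sum.elim (fun l => psP S p v0 l.1) (fun q => Hs S p v0 k0 (q.1.1, q.1.2.1) q.2.1.1 q.2.2.1))
    (by
      rintro (l | q)
      · exact psP_mem S p v0 RR hRa hRc hRg l.1
      · exact e6b_main S p RR hRa hRc hRg v0 k0 q.1.1 q.2.1.1 q.1.2.1 (hlam q.2.1).1 (hlam q.2.1).2 q.2.2.1)
  refine aat ι (lam := {l : Fin n → Ix // l ∈ IxG n v0 k0})
    (kap := Finset (Fin n) × {μ : Fin n → Ix // μ ∈ IxG n (zd n v0 k0) (zk n k0)})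
    (bx := {b : Fin n → Ix // b ∈ IxG n (zd n v0 k0 + bb v0 k0) (zk n k0 + k0)}) ⟨fun _ => (0, 0, 0), z7_zero n _ _⟩
    (fun l => psA S p v0 l.1) (fun l => psP S p v0 l.1) (xi0 S p v0) (xi0_ne S p v0)
    (fun l => psA_eq S p v0 l.1 (hlam l).1)
    (fun κ l b => Xi S p v0 k0 * Hs S p v0 k0 (κ.1, κ.2.1) l.1 b.1)
    (fun κ l b => Hs S p v0 k0 (κ.1, κ.2.1) l.1 b.1) (Xi S p v0 k0) (Xi_ne S p hpne v0 k0) (fun _ _ _ => rfl)
    (fun σ l => psA_mem S p v0 (agR K) hAg l.1 σ)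
    (fun σ κ l b => e6c_main S p (agR K) hAC hAg v0 k0 κ.1 l.1 κ.2.1 (hlam l).1 (hlam l).2 b.1 σ)
    d hd (fun l => hden (Sum.inl l)) (fun κ l b => hden (Sum.inr (κ, l, b))) m0 hm0
    (fun m b => tht ι N p (IxG n (zd n v0 k0 + bb v0 k0) (zk n k0 + k0)) m b)
    (fun m => tht_one ι N p _ m _)
    (2 ^ n * (2 * n * δ * ((B * ((3 * D' + 1) + n * D' + 1) + δ) + 1) ^ (2 * n - 1))) ?_ ?_ (zT n v0 k0) (zN n v0 k0)
    ?_ ?_ ?_
  · intro m h1 h2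
    have h3 := hQ' m h1 h2
    rw [tht_eq ι N p _ m (hmm m h1 h2)]
    exact spanDim_ev ι N _ (hmm m h1 h2) (Q' m) h3.1 h3.2 δ (hδ m h2) _ _ _ (hB2.trans (Nat.le_add_right _ _))
      (hB3.trans (Nat.le_add_right _ _)) (Nat.le_add_left _ _)
  · intro m h1 h2 κ
    obtain ⟨Th, h3, h4⟩ := link_main ι N S p v0 k0 (m : ℂ) (hmm m h1 h2) κ.1 κ.2.1
      (IxG n (zd n v0 k0 + bb v0 k0) (zk n k0 + k0))
      (fun l hl hl' i J hJ => supp_vv S p v0 k0 _ _ κ.1 κ.2.1 κ.2.2 l hl hl' i J hJ)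
    refine ⟨Th, h3, fun l => ?_⟩
    rw [← h4 l.1 (hlam l).1 (hlam l).2, tht_eq ι N p _ m (hmm m h1 h2)]
    rfl
  · intro D₀ p' hp'
    exact z7_zeh ι hL N p hp S v0 k0 D₀ p' hp' m0 hm0
  · rw [Fintype.card_coe]
    exact hD1 _ hB1
  · rw [Fintype.card_coe]
    exact hD2

end Pool.Agent.H57G
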