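import Pool.Agent.Lib.H47E.C
import Pool.Agent.Lib.H47E.B
import Pool.Agent.Lib.H47E.E4

/-!
# Project H57G: the assembly of the elliptic Lindemann-Weierstrass theorem (module G of H47E). Definitions
-/

set_option autoImplicit false

open PowerSeries H47E

namespace Pool.Agent.H57G

noncomputable section

/-! ## Evaluation -/

section Ev

variable {n : ℕ} {K : Type} [Field K] (ι : K →+* ℂ) {L : PeriodPair} {e : ℂ} {a c : K}

/-- The values of the generators `x_j, xb_j, yt_j, w_j` at the point with parameters `v_j`. -/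
def gv (c : K) (L : PeriodPair) (e : ℂ) (v : Fin n → ℂ) (i : Fin n × Fin 4) : ℂ :=
  match i.2 with
  | 0 => xf L e (v i.1)
  | 1 => ι c / xf L e (v i.1)
  | 2 => yf L (v i.1) / xf L e (v i.1)
  | 3 => wf L e (v i.1)

theorem gv_c (N : Norm L e (ι a) (ι c)) (v : Fin n → ℂ) (hv : ∀ j, 2 * v j ∉ L.lattice) (j : Fin n) :
    gv ι c L e v (j, 0) * gv ι c L e v (j, 1) = ι (algebraMap K K c) := by
  have h := x_ne N (hv j)
  show xf L e (v j) * (ι c / xf L e (v j)) = ι c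
  field_simp

theorem gv_a (N : Norm L e (ι a) (ι c)) (v : Fin n → ℂ) (hv : ∀ j, 2 * v j ∉ L.lattice) (j : Fin n) :
    gv ι c L e v (j, 2) ^ 2 = gv ι c L e v (j, 0) + gv ι c L e v (j, 1) + ι (algebraMap K K a) := by
  have h := x_ne N (hv j)
  have h1 : v j ∉ L.lattice := fun h => hv j (by rw [two_mul]; exact add_mem h h)
  have h2 := curve N h1
  show (yf L (v j) / xf L e (v j)) ^ 2 = xf L e (v j) + ι c / xf L e (v j) + ι a
  field_simp
  linear_combination h2

/-- The value at the point with parameters `v_j`. -/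
def ev (N : Norm L e (ι a) (ι c)) (v : Fin n → ℂ) (hv : ∀ j, 2 * v j ∉ L.lattice) : LL n a c K →+* ℂ :=
  llift a c K ι (gv ι c L e v) (gv_c ι N v hv) (gv_a ι N v hv)

/-- The parameters `z` for which the point is defined. -/
def Om (L : PeriodPair) (p : Fin n → K) : Set ℂ := {z | ∀ j, 2 * (ι (p j) * z) ∉ L.lattice}

open Classical in
/-- An element of the ring as a function of the parameter `z`. -/
def Fz (N : Norm L e (ι a) (ι c)) (p : Fin n → K) (φ : LL n a c K) (z : ℂ) : ℂ :=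
  if h : ∀ j, 2 * (ι (p j) * z) ∉ L.lattice then ev ι N (fun j => ι (p j) * z) h φ else 0

end Ev

/-! ## Taylor series -/

/-- Taylor series of a function at a point. -/
def TS (f : ℂ → ℂ) (z : ℂ) : ℂ⟦X⟧ := PowerSeries.mk fun i => iteratedDeriv i f z / (i.factorial : ℂ)

/-- Positive radius of convergence. -/
def Geo (F : ℂ⟦X⟧) : Prop := ∃ B : ℝ, ∀ i : ℕ, ‖coeff i F‖ ≤ B ^ (i + 1)

/-! ## The series `Psi` -/

section Psi

variable {n : ℕ} {K : Type} [Field K] {a c : K} (S : Ser K a c) (p : Fin n → K) (v0 : ℕ)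

/-- `∏ U(p_j z)^(v0)` times the monomial `I`, as a power series. -/
def psA (I : Fin n → Ix) : K⟦X⟧ :=
  ∏ j, sc (p j) (S.U ^ (v0 - (wt (I j)).toNat) * S.X ^ ((I j).1 - ((I j).2.1 : ℕ)).toNat * S.Y ^ ((I j).2.1 : ℕ) *
    S.Z ^ (I j).2.2)

/-- `∏ t(p_j z)^(v0)` times the monomial `I`. -/
def psP (I : Fin n → Ix) : K⟦X⟧ :=
  ∏ j, sc (p j) (S.t ^ (v0 - (wt (I j)).toNat) * S.xi ^ ((I j).1 - ((I j).2.1 : ℕ)).toNat * (-S.xi) ^ ((I j).2.1 : ℕ) *
    (1 + S.t * S.g) ^ (I j).2.2)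

/-- The quotient. -/
def xi0 : K⟦X⟧ := ∏ j, sc (p j) (S.rho ^ v0)

/-- `∏ U(p_j z)^(v0)` -/
def uu : K⟦X⟧ := ∏ j, sc (p j) (S.U ^ v0)

end Psi

end

end Pool.Agent.H57G
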