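import Pool.Agent.Lib.H57G.C4
import Pool.Agent.Lib.H16LW.R4

/-!
# The elliptic Lindemann-Weierstrass theorem for `℘` and `ζ`, complex multiplication
-/

set_option autoImplicit false

namespace Pool.Agent.H57G

/-- The final theorem. -/
theorem final (ω₁ ω₂ : ℂ) (h : (ω₂ / ω₁).im ≠ 0)
    (hcm : ∃ α : ℂ, α.im ≠ 0 ∧ ∀ m k : ℤ, ∃ m' k' : ℤ, α * ((m : ℂ) * ω₁ + (k : ℂ) * ω₂) = (m' : ℂ) * ω₁ + (k' : ℂ) * ω₂)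
    (h4 : IsAlgebraic ℚ (60 * ∑' q : ℤ × ℤ, 1 / ((q.1 : ℂ) * ω₁ + (q.2 : ℂ) * ω₂) ^ 4))
    (h6 : IsAlgebraic ℚ (140 * ∑' q : ℤ × ℤ, 1 / ((q.1 : ℂ) * ω₁ + (q.2 : ℂ) * ω₂) ^ 6))
    (n : ℕ) (p : Fin n → ℂ) (hp : ∀ j, IsAlgebraic ℚ (p j))
    (hi : ∀ c : Fin n → ℂ,
        (∀ j, ∀ m k : ℤ, ∃ a b : ℚ,
          c j * ((m : ℂ) * ω₁ + (k : ℂ) * ω₂) = (a : ℂ) * ω₁ + (b : ℂ) * ω₂) →
        ∑ j, c j * p j = 0 → ∀ j, c j = 0) :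
    AlgebraicIndependent ℚ
      (Sum.elim
        (fun j : Fin n => ∑' q : ℤ × ℤ,
          (1 / (p j - ((q.1 : ℂ) * ω₁ + (q.2 : ℂ) * ω₂)) ^ 2
            - 1 / ((q.1 : ℂ) * ω₁ + (q.2 : ℂ) * ω₂) ^ 2))
        (fun j : Fin n => ∑' q : ℤ × ℤ,
          (1 / (p j - ((q.1 : ℂ) * ω₁ + (q.2 : ℂ) * ω₂))
            + 1 / ((q.1 : ℂ) * ω₁ + (q.2 : ℂ) * ω₂)
            + p j / ((q.1 : ℂ) * ω₁ + (q.2 : ℂ) * ω₂) ^ 2))) :=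
  H16LW.final (H16LW.core_of coreI) ω₁ ω₂ h hcm h4 h6 n p hp hi

end Pool.Agent.H57G
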